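import Pool.Agent.Work.MP_f1a024_nt.TE.Stmts

set_option autoImplicit false

/-!
# MP_f1a024_nt, block TE, item Asy: the logarithms of the Euler factors
-/

open Filter Topology

namespace Pool.Agent.TE

theorem pr_Asy : StAsy := by
  intro n hn
  have h1 : HasDerivAt (fun x : ℝ => -Real.log (1 - x)) 1 0 := by
    have h2 : HasDerivAt (fun x : ℝ => 1 - x) (-1) 0 := by
      simpa using (hasDerivAt_id (0 : ℝ)).const_sub 1
    have h3 : HasDerivAt (fun x : ℝ => -Real.log (1 - x)) (-(-1 / (1 - 0))) 0 :=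
      (h2.log (by norm_num)).neg
    refine h3.congr_deriv ?_
    norm_num
  rw [hasDerivAt_iff_tendsto_slope] at h1
  have h4 : Tendsto (fun p : ℕ => 1 / (p : ℝ) ^ n) atTop (𝓝[≠] 0) := by
    rw [tendsto_nhdsWithin_iff]
    constructor
    · have h5 : Tendsto (fun p : ℕ => (p : ℝ) ^ n) atTop atTop :=
        (tendsto_pow_atTop (by omega)).comp tendsto_natCast_atTop_atTop
      have h6 : Tendsto (fun p : ℕ => ((p : ℝ) ^ n)⁻¹) atTop (𝓝 0) := h5.inv_tendsto_atTop
      simpa [one_div] using h6
    · filter_upwards [eventually_ge_atTop 1] with p hp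
      have : (0 : ℝ) < p := by exact_mod_cast hp
      have h6 : (0 : ℝ) < 1 / (p : ℝ) ^ n := by positivity
      exact h6.ne'
  refine (h1.comp h4).congr fun p => ?_
  simp only [Function.comp, slope, vz]
  simp

end Pool.Agent.TE
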