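import Pool.Agent.Work.MP_f1a024_nt.TE.Stmts

set_option autoImplicit false

/-!
# Blk: one block
-/

open Filter Topology

namespace Pool.Agent.TE

namespace ITBlk

/-- uniform closeness for finitely many exponents -/
theorem close (v : ℕ → ℕ → ℝ) (hv : Asy v) (d : ℕ) (η : ℝ) (hη : 0 < η) :
    ∃ P : ℕ, ∀ p, P ≤ p → ∀ n, 2 ≤ n → n ≤ d + 1 → |(p : ℝ) ^ n * v n p - 1| ≤ η := by
  have h1 : ∀ n ∈ Finset.Icc 2 (d + 1), ∀ᶠ p : ℕ in atTop, |(p : ℝ) ^ n * v n p - 1| ≤ η := by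
    intro n hn
    have h2 := (hv n (Finset.mem_Icc.1 hn).1).eventually (Metric.closedBall_mem_nhds 1 hη)
    filter_upwards [h2] with p hp
    rwa [Real.dist_eq] at hp
  have h3 := (Filter.eventually_all_finset _).2 h1
  obtain ⟨P, hP⟩ := eventually_atTop.1 h3
  exact ⟨P, fun p hp n h2 hn => hP p hp n (Finset.mem_Icc.2 ⟨h2, hn⟩)⟩

theorem small {v : ℕ → ℕ → ℝ} {n p X : ℕ} (hX : 0 < X) (hp : X ≤ p)
    (h : |(p : ℝ) ^ n * v n p - 1| ≤ 1) : |v n p| ≤ 2 / (X : ℝ) ^ n := by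
  have hX' : (0 : ℝ) < X := by exact_mod_cast hX
  have hpX : (X : ℝ) ≤ p := by exact_mod_cast hp
  have hp' : (0 : ℝ) < p := hX'.trans_le hpX
  have h1 : |(p : ℝ) ^ n * v n p| ≤ 2 := by
    have h2 := abs_le.1 h
    rw [abs_le]
    constructor <;> linarith [h2.1, h2.2]
  rw [abs_mul, abs_of_pos (by positivity)] at h1
  have h3 : |v n p| ≤ 2 / (p : ℝ) ^ n := by
    rw [le_div_iff₀ (by positivity), mul_comm]
    exact h1
  refine h3.trans ?_
  exact div_le_div_of_nonneg_left (by norm_num) (by positivity)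
    (pow_le_pow_left₀ hX'.le hpX n)

theorem entry {v : ℕ → ℕ → ℝ} {n p X : ℕ} {η : ℝ} (hX : 0 < X) (hp : X ≤ p)
    (h : |(p : ℝ) ^ n * v n p - 1| ≤ η) :
    |(X : ℝ) ^ n * v n p - 1 / ((p : ℝ) / X) ^ n| ≤ η := by
  have hX' : (0 : ℝ) < X := by exact_mod_cast hX
  have hpX : (X : ℝ) ≤ p := by exact_mod_cast hp
  have hp' : (0 : ℝ) < p := hX'.trans_le hpX
  have h1 : (X : ℝ) ^ n * v n p - 1 / ((p : ℝ) / X) ^ n =
      ((p : ℝ) ^ n * v n p - 1) * ((X : ℝ) ^ n / (p : ℝ) ^ n) := by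
    rw [div_pow]
    field_simp
  rw [h1, abs_mul]
  have h2 : (X : ℝ) ^ n / (p : ℝ) ^ n ≤ 1 := by
    rw [div_le_one (by positivity)]
    exact pow_le_pow_left₀ hX'.le hpX n
  have h3 : 0 ≤ (X : ℝ) ^ n / (p : ℝ) ^ n := by positivity
  rw [abs_of_nonneg h3]
  calc |(p : ℝ) ^ n * v n p - 1| * ((X : ℝ) ^ n / (p : ℝ) ^ n)
      ≤ |(p : ℝ) ^ n * v n p - 1| * 1 := mul_le_mul_of_nonneg_left h2 (abs_nonneg _)
    _ ≤ η := by rw [mul_one]; exact h

end ITBlk

theorem pr_Blk (hR : StRound) (hV : StVdm) : StBlk := by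
  intro v hv d
  obtain ⟨K, η, hK, hη, hVd⟩ := hV d
  obtain ⟨P, hP⟩ := ITBlk.close v hv d (min η 1) (lt_min hη one_pos)
  refine ⟨max 1 ⌈2 * K * rho d⌉₊, P, fun s hs F hF δ hδ => ?_⟩
  set m : ℕ := max 1 ⌈2 * K * rho d⌉₊ with hm
  have hm1 : 1 ≤ m := le_max_left _ _
  have hm0 : (0 : ℝ) < m := by exact_mod_cast hm1
  have hm2 : 2 * K * rho d ≤ m := (Nat.le_ceil _).trans (by exact_mod_cast le_max_right _ _)
  obtain ⟨p, hinj, hFp, hp⟩ := hF
  have hX0 : 0 < 16 ^ s := by positivity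
  have hXp : ∀ c, 16 ^ s ≤ p c := fun c =>
    (Nat.pow_le_pow_right (by norm_num) (Nat.le_add_right s _)).trans (hp c.1 c.2).1
  have hPp : ∀ c, P ≤ p c := fun c =>
    (hs.trans (Nat.lt_pow_self (by norm_num : 1 < 16)).le).trans (hXp c)
  have hcl : ∀ c n, 2 ≤ n → n ≤ d + 1 → |((p c : ℕ) : ℝ) ^ n * v n (p c) - 1| ≤ min η 1 :=
    fun c n h2 hn => hP _ (hPp c) n h2 hn
  have hcast : (((16 ^ s : ℕ) : ℝ)) = (16 : ℝ) ^ s := by push_cast; rfl
  -- the coefficients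
  have hl : ∀ j : Fin m, ∃ l : Fin d → ℝ,
      (∀ n : Fin d, ∑ i, l i * ((16 : ℝ) ^ (s * ((n : ℕ) + 2)) * v ((n : ℕ) + 2) (p (i, j))) =
        (16 : ℝ) ^ (s * ((n : ℕ) + 2)) * δ ((n : ℕ) + 2) / m) ∧
      ∀ i, |l i| ≤ K * (rho d / m) := by
    intro j
    refine hVd (fun i => (p (i, j) : ℝ) / ((16 ^ s : ℕ) : ℝ)) ?_ _ ?_ _ _ ?_
    · intro i
      obtain ⟨h1, h2⟩ := hp i j
      have h1' : (16 : ℝ) ^ (s + (i : ℕ)) ≤ p (i, j) := by exact_mod_cast h1
      have h2' : (p (i, j) : ℝ) ≤ 4 * 16 ^ (s + (i : ℕ)) := by exact_mod_cast h2.le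
      rw [hcast]
      rw [pow_add] at h1' h2'
      constructor
      · rw [le_div_iff₀ (by positivity)]
        linarith
      · rw [div_le_iff₀ (by positivity)]
        linarith
    · intro n i
      have h1 := ITBlk.entry (v := v) (n := (n : ℕ) + 2) hX0 (hXp (i, j))
        ((hcl (i, j) ((n : ℕ) + 2) (by omega) (by omega)).trans (min_le_left _ _))
      rw [hcast, ← pow_mul] at h1
      rw [hcast]
      exact h1
    · intro n
      have h1 := hδ ((n : ℕ) + 2) (by omega) (by omega)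
      rw [abs_div, abs_of_pos hm0, abs_mul, abs_of_pos (by positivity)]
      refine div_le_div_of_nonneg_right ?_ hm0.le
      rw [le_div_iff₀ (by positivity)] at h1
      linarith
  choose l hl1 hl2 using hl
  have hhalf : K * (rho d / m) ≤ 1 / 2 := by
    rw [← mul_div_assoc, div_le_iff₀ hm0]
    linarith
  obtain ⟨S, hS⟩ := hR (Fin d × Fin m) d (fun n c => v ((n : ℕ) + 2) (p c))
    (fun c => 1 / 2 + l c.2 c.1) (fun n => 2 / (16 : ℝ) ^ (s * ((n : ℕ) + 2)))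
    (fun n => by positivity)
    (fun c => by
      have h1 := abs_le.1 ((hl2 c.2 c.1).trans hhalf)
      constructor <;> linarith [h1.1, h1.2])
    (fun n c => by
      have h1 := ITBlk.small (v := v) (n := (n : ℕ) + 2) hX0 (hXp c)
        ((hcl c ((n : ℕ) + 2) (by omega) (by omega)).trans (min_le_right _ _))
      rw [hcast, ← pow_mul] at h1
      exact h1)
  refine ⟨S.image p, ?_, ?_⟩
  · rw [hFp]
    exact Finset.image_subset_image (Finset.subset_univ S)
  · intro n h2 hn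
    obtain ⟨n', rfl⟩ : ∃ n', n = n' + 2 := ⟨n - 2, by omega⟩
    have hn' : n' < d := by omega
    have h3 := hS ⟨n', hn'⟩
    simp only at h3
    rw [hFp, Finset.sum_image (fun a _ b _ h => hinj h), Finset.sum_image (fun a _ b _ h => hinj h)]
    have h4 : ∑ c : Fin d × Fin m, (1 / 2 + l c.2 c.1) * v (n' + 2) (p c) =
        1 / 2 * ∑ c : Fin d × Fin m, v (n' + 2) (p c) + δ (n' + 2) := by
      simp only [add_mul, Finset.sum_add_distrib, ← Finset.mul_sum]
      congr 1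
      rw [Fintype.sum_prod_type_right]
      have h5 : ∀ j : Fin m, ∑ i : Fin d, l j i * v (n' + 2) (p (i, j)) = δ (n' + 2) / m := by
        intro j
        have h6 := hl1 j ⟨n', hn'⟩
        simp only at h6
        have h7 : (0 : ℝ) < 16 ^ (s * (n' + 2)) := by positivity
        have h8 : (16 : ℝ) ^ (s * (n' + 2)) * ∑ i : Fin d, l j i * v (n' + 2) (p (i, j)) =
            16 ^ (s * (n' + 2)) * (δ (n' + 2) / m) := by
          rw [Finset.mul_sum, ← mul_div_assoc, ← h6]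
          refine Finset.sum_congr rfl fun i _ => ?_
          ring
        exact mul_left_cancel₀ h7.ne' h8
      simp only [h5, Finset.sum_const, Finset.card_univ, Fintype.card_fin, nsmul_eq_mul]
      field_simp
    rw [h4] at h3
    have h9 : (d : ℝ) * (2 / 16 ^ (s * (n' + 2))) = 2 * d / 16 ^ (s * (n' + 2)) := by ring
    rw [h9] at h3
    convert h3 using 2
    ring

end Pool.Agent.TE
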