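import Pool.Agent.Work.MP_f1a024_nt.TE.Stmts

set_option autoImplicit false

/-!
# Bls: existence of the blocks
-/

open Filter Topology

namespace Pool.Agent.TE

namespace ITBls

theorem lt_next {s i p : ℕ} (hp : p < 4 * 16 ^ (s + i)) : p < 16 ^ (s + i + 1) := by
  rw [pow_succ]
  have h : 0 < 16 ^ (s + i) := by positivity
  omega

theorem mk (A : Set ℕ) (d m s : ℕ) (h : ∀ i : Fin d, ∃ G : Finset ℕ, G.card = m ∧
    ∀ p ∈ G, p ∈ A ∧ 16 ^ (s + (i : ℕ)) ≤ p ∧ p < 4 * 16 ^ (s + (i : ℕ))) :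
    ∃ F : Finset ℕ, Blk d m s F ∧ ∀ p ∈ F, p ∈ A ∧ 16 ^ s ≤ p ∧ p < 16 ^ (s + d) := by
  choose G hG1 hG2 using h
  let p : Fin d × Fin m → ℕ := fun c => (G c.1).orderEmbOfFin (hG1 c.1) c.2
  have hmem : ∀ c, p c ∈ G c.1 := fun c => Finset.orderEmbOfFin_mem _ (hG1 c.1) c.2
  have hloc : ∀ c, 16 ^ (s + (c.1 : ℕ)) ≤ p c ∧ p c < 16 ^ (s + (c.1 : ℕ) + 1) := fun c =>
    ⟨(hG2 c.1 _ (hmem c)).2.1, lt_next (hG2 c.1 _ (hmem c)).2.2⟩
  have hle : ∀ {a b : ℕ}, a ≤ b → 16 ^ a ≤ 16 ^ b := fun h =>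
    Nat.pow_le_pow_right (by norm_num) h
  have hinj : Function.Injective p := by
    intro c c' hcc
    have h1 : c.1 = c'.1 := by
      refine Fin.ext ?_
      rcases lt_trichotomy (c.1 : ℕ) (c'.1 : ℕ) with h | h | h
      · have h2 := (hloc c).2.trans_le ((hle (show s + (c.1 : ℕ) + 1 ≤ s + (c'.1 : ℕ) by omega)).trans
          (hloc c').1)
        omega
      · exact h
      · have h2 := (hloc c').2.trans_le ((hle (show s + (c'.1 : ℕ) + 1 ≤ s + (c.1 : ℕ) by omega)).trans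
          (hloc c).1)
        omega
    obtain ⟨i, j⟩ := c
    obtain ⟨i', j'⟩ := c'
    simp only at h1
    subst h1
    have h3 : (G i).orderEmbOfFin (hG1 i) j = (G i).orderEmbOfFin (hG1 i) j' := hcc
    have h4 := ((G i).orderEmbOfFin (hG1 i)).injective h3
    rw [h4]
  refine ⟨Finset.univ.image p, ⟨p, hinj, rfl, fun i j => (hG2 i _ (hmem (i, j))).2⟩, ?_⟩
  intro q hq
  obtain ⟨c, -, rfl⟩ := Finset.mem_image.1 hq
  refine ⟨(hG2 c.1 _ (hmem c)).1, (hle (Nat.le_add_right _ _)).trans (hloc c).1, ?_⟩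
  exact (hloc c).2.trans_le (hle (by have := c.1.2; omega))

end ITBls

theorem pr_Bls (hB : StBlk) (hS : StSlow) : StBls := by
  intro v hv A hA
  choose m J hmJ using hB v hv
  have hN : ∀ d, ∃ N, J d ≤ N ∧ ∀ j, N ≤ j → rho d ≤ (16 : ℝ) ^ j ∧ ∃ G : Finset ℕ,
      G.card = m d ∧ ∀ p ∈ G, p ∈ A ∧ 16 ^ j ≤ p ∧ p < 4 * 16 ^ j := by
    intro d
    have h1 : ∀ᶠ j : ℕ in atTop, rho d ≤ (16 : ℝ) ^ j :=
      (tendsto_pow_atTop_atTop_of_one_lt (by norm_num : (1 : ℝ) < 16)).eventually_ge_atTop _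
    obtain ⟨N, hN⟩ := eventually_atTop.1 (h1.and (hA (m d)))
    exact ⟨max (J d) N, le_max_left _ _, fun j hj => hN j ((le_max_right _ _).trans hj)⟩
  choose N hN1 hN2 using hN
  obtain ⟨g, g0, gm, gi, gt, gN⟩ := hS N
  let s : ℕ → ℕ := fun k => ∑ j ∈ Finset.range k, (g j + 1)
  have hs : ∀ k, s (k + 1) = s k + g k + 1 := by
    intro k
    change ∑ j ∈ Finset.range (k + 1), (g j + 1) = _
    rw [Finset.sum_range_succ]
    rfl
  have hsk : ∀ k, k ≤ s k := by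
    intro k
    induction k with
    | zero => exact Nat.zero_le _
    | succ k ih => rw [hs]; omega
  have hF : ∀ k, ∃ F : Finset ℕ, (∀ p ∈ F, p ∈ A ∧ 16 ^ s k ≤ p ∧ p < 16 ^ s (k + 1)) ∧
      Can v (g k) (s k) F := by
    intro k
    rcases Nat.eq_zero_or_pos (g k) with h0 | h0
    · refine ⟨∅, by simp, ?_⟩
      rw [h0]
      intro δ _
      exact ⟨∅, Finset.Subset.refl _, fun n h2 hn => by omega⟩
    · have hkN := gN k h0
      obtain ⟨F, hF1, hF2⟩ := ITBls.mk A (g k) (m (g k)) (s k) fun i =>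
        (hN2 (g k) (s k + (i : ℕ)) (hkN.trans ((hsk k).trans (Nat.le_add_right _ _)))).2
      refine ⟨F, fun p hp => ?_, ?_⟩
      · obtain ⟨h1, h2, h3⟩ := hF2 p hp
        refine ⟨h1, h2, h3.trans_le (Nat.pow_le_pow_right (by norm_num) ?_)⟩
        rw [hs]
        omega
      · exact hmJ (g k) (s k) ((hN1 (g k)).trans (hkN.trans (hsk k))) F hF1
  choose F hF1 hF2 using hF
  refine ⟨g, s, F, ⟨g0, gm, gi, gt, hs, ?_, fun k p hp => (hF1 k p hp).2, hF2⟩,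
    fun k p hp => (hF1 k p hp).1⟩
  intro k h0
  exact (hN2 (g k) (s k) ((gN k h0).trans (hsk k))).1

end Pool.Agent.TE
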