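import Pool.Agent.Work.MP_f1a024_nt.TE.Stmts

set_option autoImplicit false

/-!
# MP_f1a024_nt, block TE, item Eul: the Euler product without the primes of `E`
-/

open Filter Topology

namespace Pool.Agent.TE

namespace ITEul

open Classical in
/-- the terms of the sum -/
noncomputable def gE (E : Set ℕ) (n k : ℕ) : ℝ :=
  if 0 < k ∧ ∀ p ∈ E, ¬ p ∣ k then 1 / (k : ℝ) ^ n else 0

lemma zetaP_eq (E : Set ℕ) (n : ℕ) : zetaP E n = ∑' k, gE E n k := by
  unfold zetaP gE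
  rfl

lemma gE_mul (E : Set ℕ) (hE : ∀ p ∈ E, p.Prime) (n a b : ℕ) :
    gE E n (a * b) = gE E n a * gE E n b := by
  classical
  unfold gE
  by_cases ha : 0 < a ∧ ∀ p ∈ E, ¬ p ∣ a
  · by_cases hb : 0 < b ∧ ∀ p ∈ E, ¬ p ∣ b
    · have hab : 0 < a * b ∧ ∀ p ∈ E, ¬ p ∣ a * b := by
        refine ⟨Nat.mul_pos ha.1 hb.1, fun p hp h => ?_⟩
        rcases (hE p hp).dvd_mul.1 h with h | h
        · exact ha.2 p hp h
        · exact hb.2 p hp h
      rw [if_pos hab, if_pos ha, if_pos hb]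
      push_cast
      rw [mul_pow]
      rw [one_div_mul_one_div]
    · have hab : ¬ (0 < a * b ∧ ∀ p ∈ E, ¬ p ∣ a * b) := by
        intro h
        exact hb ⟨Nat.pos_of_mul_pos_left h.1, fun p hp hd => h.2 p hp (Dvd.dvd.mul_left hd a)⟩
      rw [if_neg hab, if_neg hb, mul_zero]
  · have hab : ¬ (0 < a * b ∧ ∀ p ∈ E, ¬ p ∣ a * b) := by
      intro h
      exact ha ⟨Nat.pos_of_mul_pos_right h.1, fun p hp hd => h.2 p hp (Dvd.dvd.mul_right hd b)⟩
    rw [if_neg hab, if_neg ha, zero_mul]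

lemma gE_zero (E : Set ℕ) (n : ℕ) : gE E n 0 = 0 := by
  classical
  unfold gE
  rw [if_neg]
  rintro ⟨h, -⟩
  exact lt_irrefl _ h

lemma gE_one (E : Set ℕ) (hE : ∀ p ∈ E, p.Prime) (n : ℕ) : gE E n 1 = 1 := by
  classical
  unfold gE
  rw [if_pos]
  · simp
  · refine ⟨one_pos, fun p hp h => ?_⟩
    exact (hE p hp).one_lt.ne' (Nat.dvd_one.1 h)

lemma gE_nonneg (E : Set ℕ) (n k : ℕ) : 0 ≤ gE E n k := by
  classical
  unfold gE
  split_ifs
  · positivity
  · exact le_rfl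

lemma gE_le (E : Set ℕ) (n k : ℕ) : gE E n k ≤ 1 / (k : ℝ) ^ n := by
  classical
  unfold gE
  split_ifs
  · exact le_rfl
  · positivity

lemma gE_summable (E : Set ℕ) (n : ℕ) (hn : 2 ≤ n) : Summable (gE E n) :=
  Summable.of_nonneg_of_le (gE_nonneg E n) (gE_le E n) (Real.summable_one_div_nat_pow.2 (by omega))

/-- the completely multiplicative function -/
noncomputable def fE (E : Set ℕ) (hE : ∀ p ∈ E, p.Prime) (n : ℕ) : ℕ →*₀ ℂ where
  toFun k := ((gE E n k : ℝ) : ℂ)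
  map_zero' := by rw [gE_zero, Complex.ofReal_zero]
  map_one' := by rw [gE_one E hE, Complex.ofReal_one]
  map_mul' a b := by rw [gE_mul E hE, Complex.ofReal_mul]

lemma gE_prime_mem (E : Set ℕ) (n p : ℕ) (hp : p ∈ E) : gE E n p = 0 := by
  classical
  unfold gE
  rw [if_neg]
  rintro ⟨-, h⟩
  exact h p hp dvd_rfl

lemma gE_prime_not (E : Set ℕ) (hE : ∀ p ∈ E, p.Prime) (n p : ℕ) (hpp : p.Prime) (hp : p ∉ E) :
    gE E n p = 1 / (p : ℝ) ^ n := by
  classical
  unfold gE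
  rw [if_pos]
  refine ⟨hpp.pos, fun q hq h => ?_⟩
  rw [(Nat.prime_dvd_prime_iff_eq (hE q hq) hpp).1 h] at hq
  exact hp hq

lemma inv_pow_le (n p : ℕ) (hn : 2 ≤ n) (hp : p.Prime) : 1 / (p : ℝ) ^ n ≤ 1 / 2 := by
  have h1 : (2 : ℝ) ≤ p := by exact_mod_cast hp.two_le
  have h2 : (2 : ℝ) ≤ (p : ℝ) ^ n := by
    calc (2 : ℝ) = 2 ^ 1 := by norm_num
      _ ≤ 2 ^ n := pow_le_pow_right₀ (by norm_num) (by omega)
      _ ≤ (p : ℝ) ^ n := pow_le_pow_left₀ (by norm_num) h1 n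
  exact one_div_le_one_div_of_le (by norm_num) h2

lemma vz_nonneg (n p : ℕ) (hn : 2 ≤ n) (hp : p.Prime) : 0 ≤ vz n p := by
  have h1 := inv_pow_le n p hn hp
  have h2 : 0 ≤ 1 / (p : ℝ) ^ n := by positivity
  unfold vz
  have h3 : Real.log (1 - 1 / (p : ℝ) ^ n) ≤ 0 := Real.log_nonpos (by linarith) (by linarith)
  linarith

lemma vz_le (n p : ℕ) (hn : 2 ≤ n) (hp : p.Prime) : vz n p ≤ 2 * (1 / (p : ℝ) ^ n) := by
  have h1 := inv_pow_le n p hn hp
  have h2 : 0 ≤ 1 / (p : ℝ) ^ n := by positivity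
  unfold vz
  set x : ℝ := 1 / (p : ℝ) ^ n
  have h3 : 1 - (1 - x)⁻¹ ≤ Real.log (1 - x) := Real.one_sub_inv_le_log_of_pos (by linarith)
  have h4 : (1 - x)⁻¹ - 1 ≤ 2 * x := by
    have h5 : 0 < 1 - x := by linarith
    rw [sub_le_iff_le_add, inv_le_iff_one_le_mul₀ h5]
    nlinarith
  linarith

lemma vz_summable (n : ℕ) (hn : 2 ≤ n) : Summable fun p : Nat.Primes => vz n p := by
  have h1 : Summable fun p : Nat.Primes => 2 * (1 / ((p : ℕ) : ℝ) ^ n) := by
    have h2 : Summable fun k : ℕ => 2 * (1 / (k : ℝ) ^ n) :=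
      (Real.summable_one_div_nat_pow.2 (by omega)).mul_left 2
    exact h2.subtype Nat.Prime
  exact Summable.of_nonneg_of_le (fun p => vz_nonneg n p hn p.2) (fun p => vz_le n p hn p.2) h1

lemma ind_summable (E : Set ℕ) (n : ℕ) (hn : 2 ≤ n) :
    Summable fun p : Nat.Primes => E.indicator (vz n) p := by
  refine Summable.of_nonneg_of_le (fun p => ?_) (fun p => ?_) (vz_summable n hn)
  · exact Set.indicator_apply_nonneg fun _ => vz_nonneg n p hn p.2
  · exact Set.indicator_apply_le' (fun _ => le_rfl) fun _ => vz_nonneg n p hn p.2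

/-- the Euler product -/
lemma euler (E : Set ℕ) (hE : ∀ p ∈ E, p.Prime) (n : ℕ) (hn : 2 ≤ n) :
    zetaP E n = Real.exp (∑' p : Nat.Primes, (vz n p - E.indicator (vz n) p)) := by
  have hsum : Summable (fun k => ‖fE E hE n k‖) := by
    have h1 : (fun k => ‖fE E hE n k‖) = gE E n := by
      funext k
      show ‖((gE E n k : ℝ) : ℂ)‖ = gE E n k
      rw [Complex.norm_real, Real.norm_of_nonneg (gE_nonneg E n k)]
    rw [h1]
    exact gE_summable E n hn
  have h1 := EulerProduct.exp_tsum_primes_log_eq_tsum hsum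
  have h2 : ∀ p : Nat.Primes, -Complex.log (1 - fE E hE n p) =
      ((vz n p - E.indicator (vz n) p : ℝ) : ℂ) := by
    intro p
    show -Complex.log (1 - ((gE E n p : ℝ) : ℂ)) = _
    by_cases hp : (p : ℕ) ∈ E
    · rw [gE_prime_mem E n p hp, Set.indicator_of_mem hp, sub_self]
      simp
    · rw [gE_prime_not E hE n p p.2 hp, Set.indicator_of_notMem hp, sub_zero]
      have h3 := inv_pow_le n p hn p.2
      have h4 : (1 - ((1 / ((p : ℕ) : ℝ) ^ n : ℝ) : ℂ)) = ((1 - 1 / ((p : ℕ) : ℝ) ^ n : ℝ) : ℂ) := by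
        rw [Complex.ofReal_sub, Complex.ofReal_one]
      rw [h4, ← Complex.ofReal_log (by linarith), ← Complex.ofReal_neg]
      rfl
  simp only [h2] at h1
  rw [← Complex.ofReal_tsum, ← Complex.ofReal_exp] at h1
  have h5 : ∑' k : ℕ, fE E hE n k = ((zetaP E n : ℝ) : ℂ) := by
    rw [zetaP_eq, Complex.ofReal_tsum]
    rfl
  rw [h5] at h1
  exact_mod_cast h1.symm

end ITEul

open ITEul in
theorem pr_Eul : StEul := by
  intro E hE n hn
  have h0 := euler ∅ (fun p hp => absurd hp (Set.notMem_empty p)) n hn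
  have h1 := euler E hE n hn
  have h2 : ∑' p : Nat.Primes, (vz n p - (∅ : Set ℕ).indicator (vz n) p) = ∑' p : Nat.Primes, vz n p := by
    congr 1
    funext p
    rw [Set.indicator_empty]
    simp
  rw [h2] at h0
  have h3 : ∑' p : Nat.Primes, E.indicator (vz n) p = ∑' p : ℕ, E.indicator (vz n) p := by
    have h4 : ∑' p : Nat.Primes, E.indicator (vz n) p =
        ∑' p : ℕ, ({p : ℕ | p.Prime}).indicator (E.indicator (vz n)) p :=
      tsum_subtype {p : ℕ | p.Prime} (E.indicator (vz n))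
    have h5 : {p : ℕ | p.Prime} ∩ E = E := Set.inter_eq_right.2 fun p hp => hE p hp
    rw [h4, Set.indicator_indicator, h5]
  rw [(vz_summable n hn).tsum_sub (ind_summable E n hn), h3, sub_eq_add_neg, Real.exp_add, ← h0] at h1
  exact ⟨h0 ▸ Real.exp_pos _, h1⟩

end Pool.Agent.TE
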