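import Pool.Agent.Work.MP_f1a024_nt.TE.Stmts

set_option autoImplicit false

/-!
# MP_f1a024_nt, block TE, item Main: assembly
-/

open Filter Topology

namespace Pool.Agent.TE

namespace ITMain

theorem rich_of_richA {A : Set ℕ} (h : RichA A) : Rich A := fun m =>
  (tendsto_pow_atTop_atTop_of_one_lt (by norm_num : 1 < 16)).eventually (h m)

theorem thin_mono {h : ℕ → ℝ} {A E : Set ℕ} (hA : ThinA h A) (hE : E ⊆ A) : ThinA h E := by
  unfold ThinA at hA ⊢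
  filter_upwards [hA] with x hx F hF
  exact hx F fun p hp => ⟨hE (hF p hp).1, (hF p hp).2⟩

end ITMain

open ITMain in
theorem pr_Main (hT : StTh) (hThin : StThin) (hPat : StPat) : StMain := by
  have h2 : ∀ h : ℕ → ℝ, Tendsto h atTop atTop → ∀ D : ℕ → Set ℝ, DenseP D →
      ∃ E : Set ℕ, (∀ p ∈ E, p.Prime) ∧ ThinA h E ∧ ∀ n, 2 ≤ n → zetaP E n ∈ D n := by
    intro h hh D hD
    obtain ⟨A, hA1, hA2, hA3⟩ := hThin h hh
    obtain ⟨E, hE, hE2⟩ := hT A hA1 hA2 D hD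
    exact ⟨E, fun p hp => hA1 p (hE hp), thin_mono hA3 hE, hE2⟩
  refine ⟨fun A hA hR D hD => hT A hA (rich_of_richA hR) D hD, h2, ?_⟩
  intro h hh N
  obtain ⟨D, hD, hP⟩ := hPat N
  obtain ⟨E, hE1, hE2, hE3⟩ := h2 h hh D hD
  obtain ⟨h3, h4⟩ := hP (zetaP E) hE3
  exact ⟨E, hE1, hE2, h3, h4⟩

end Pool.Agent.TE
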