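import Pool.Agent.Work.MP_f1a024_nt.TE.Defs

set_option autoImplicit false

/-!
# MP_f1a024_nt, block TE: statements, each with its complete proof
-/

open Filter Topology

namespace Pool.Agent.TE

/-- ROUNDING (no hypotheses).  Induction on the number of `i` with `0 < t i < 1` (fractional `i`).
If there are at most `d` fractional indices let `S = {i | t i = 1}`: the difference is
`∑_(i fractional) t i * w n i`, at most `d` terms of absolute value `≤ M n`.  If there are more than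
`d` fractional indices there is `c : ι → ℝ`, `c ≠ 0`, supported on the fractional indices, with
`∑_i c i * w n i = 0` for all `n` (`d` equations: the vectors `(w n i)_n ∈ ℝ^d` are linearly
dependent; e.g. `exists_nontrivial_relation_of_finrank_lt_card` or
`Module.exists_nontrivial_relation_of_finrank_lt_card`).  Change the sign so that some `c i > 0`.
Let `r ≥ 0` be the largest number such that `t + r c` has values in `[0, 1]` (a minimum over finitely
many indices); then `t + r c` has the same sums and at least one fractional index less. -/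
def StRound : Prop := ∀ (ι : Type) [Fintype ι] (d : ℕ) (w : Fin d → ι → ℝ) (t : ι → ℝ)
  (M : Fin d → ℝ), (∀ n, 0 ≤ M n) → (∀ i, 0 ≤ t i ∧ t i ≤ 1) → (∀ n i, |w n i| ≤ M n) →
  ∃ S : Finset ι, ∀ n, |∑ i ∈ S, w n i - ∑ i, t i * w n i| ≤ d * M n

/-- UNIFORM INVERSE OF VANDERMONDE MATRICES (no hypotheses).  `V u n i = (u i)^(-(n+2))`.  For `u` in
the compact set `U = {u : ∀ i, 16^i ≤ u i ≤ 4 * 16^i}` the determinant of `V u` is
`∏_i (u i)^(-2) ∏_(i<j) ((u j)^(-1) - (u i)^(-1)) ≠ 0` (`Matrix.det_vandermonde`; the `u i` are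
different).  So `|det (V u)| ≥ c > 0` on `U`.  The entries are in `[0, 1]`.  The determinant is
uniformly continuous on the compact set of matrices with entries in `[-2, 2]`, so there is
`0 < η ≤ 1` such that `|det W| ≥ c / 2` if `|W n i - V u n i| ≤ η` for all `n, i`.  The entries of the
adjugate of `W` are bounded by a constant `C` (continuous function on the same compact set).
`l = W⁻¹ s = (det W)⁻¹ adjugate(W) s`, so `|l i| ≤ (2 / c) d C σ`. -/
def StVdm : Prop := ∀ d : ℕ, ∃ K η : ℝ, 0 < K ∧ 0 < η ∧ ∀ u : Fin d → ℝ,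
  (∀ i : Fin d, (16 : ℝ) ^ (i : ℕ) ≤ u i ∧ u i ≤ 4 * 16 ^ (i : ℕ)) → ∀ W : Fin d → Fin d → ℝ,
  (∀ n i : Fin d, |W n i - 1 / (u i) ^ ((n : ℕ) + 2)| ≤ η) → ∀ (s : Fin d → ℝ) (σ : ℝ),
  (∀ n, |s n| ≤ σ) → ∃ l : Fin d → ℝ, (∀ n, ∑ i, l i * W n i = s n) ∧ ∀ i, |l i| ≤ K * σ

/-- The Euler factors (no hypotheses).  `log(1 - x) / x → -1` as `x → 0` (derivative of the
logarithm at `1`), with `x = 1 / p^n → 0`. -/
def StAsy : Prop := Asy vz

/-- ONE BLOCK (uses `StRound`, `StVdm`).  `K`, `η ≤ 1` from `StVdm`, `m ≥ 2 K rho d`, `m ≥ 1`.  `J` such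
that `|p^n v n p - 1| ≤ η` for `p ≥ 16^J`, `2 ≤ n ≤ d + 1`.  Let `X = 16^s`, `s ≥ J`, and `p (i, j)` as in
`Blk`.  For every `j` let `u i = p (i, j) / X`, `W n i = X^(n+2) v (n+2) (p (i, j))`; then
`|W n i - (u i)^(-(n+2))| = (u i)^(-(n+2)) |p^(n+2) v - 1| ≤ η`.  Let `s n = X^(n+2) δ (n+2) / m`,
`|s n| ≤ rho d / m`, so there are `l_(i,j)` with `∑_i l_(i,j) X^(n+2) v (n+2) (p (i,j)) = X^(n+2) δ (n+2) / m`
and `|l_(i,j)| ≤ K rho d / m ≤ 1/2`.  Put `t (i, j) = 1/2 + l_(i,j)`; then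
`∑ t v (n+2) (p (i, j)) = 1/2 ∑ v + δ (n+2)`, and `StRound` with `w n c = v (n+2) (p c)`,
`M n = 2 / 16^(s (n+2))` (`|v n p| ≤ 2 p^(-n) ≤ 2 X^(-n)`) gives a set of indices; its image under `p` is
`S` (`p` is injective).  `d = 0` is trivial. -/
def StBlk : Prop := ∀ v : ℕ → ℕ → ℝ, Asy v → ∀ d : ℕ, ∃ m J : ℕ, ∀ s, J ≤ s → ∀ F : Finset ℕ,
  Blk d m s F → Can v d s F

/-- A SLOW SEQUENCE (no hypotheses).  Let `M 0 = 0`, `M (d + 1) = max (N (d + 1)) (M d + 1)`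
(strictly increasing) and let `g k` be the largest `d` with `M d ≤ k`. -/
def StSlow : Prop := ∀ N : ℕ → ℕ, ∃ g : ℕ → ℕ, g 0 = 0 ∧ (∀ k, g k ≤ g (k + 1)) ∧
  (∀ k, g (k + 1) ≤ g k + 1) ∧ Tendsto g atTop atTop ∧ ∀ k, 1 ≤ g k → N (g k) ≤ k

/-- EXISTENCE OF THE BLOCKS (uses `StBlk`, `StSlow`).  For every `d ≥ 1` let `m d`, `J d` be the numbers of
`StBlk`, and `N d` a number such that `J d ≤ N d` and, for all `j ≥ N d`: `rho d ≤ 16^j` and `A` has at
least `m d` elements in `[16^j, 4 * 16^j)` (`Rich`).  `g` from `StSlow`, `s k = ∑_(j < k) (g j + 1) ≥ k`.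
For `g k = d ≥ 1` the block `F k` consists of `m d` elements of `A` in each
`[16^(s k + i), 4 * 16^(s k + i))`, `i < d` (`s k + i ≥ k ≥ N d`; the intervals are disjoint, so the
enumeration `p` is injective); it lies in `[16^(s k), 16^(s k + d))`.  For `g k = 0` let `F k = ∅`
(`Can v 0 s ∅` is trivial: there is no `n` with `2 ≤ n ≤ 1`). -/
def StBls : Prop := ∀ v : ℕ → ℕ → ℝ, Asy v → ∀ A : Set ℕ, Rich A →
  ∃ (g s : ℕ → ℕ) (F : ℕ → Finset ℕ), Blocks v g s F ∧ ∀ k, ∀ p ∈ F k, p ∈ A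

/-- THE RECURSION (no hypotheses).  Put `b n k = 1/2 ∑_(p ∈ F k) v n p`.  Construct by recursion on
`k` the sets `S j`, `j < k`, the numbers `Y k n = ∑_(j<k) (∑_(p ∈ S j) v n p - b n j)` and
`y k n ∈ T n`, `n ≤ g k + 1`, such that `|y k n - Y k n| ≤ rho (g k) / 16^(s k * n)` for
`2 ≤ n ≤ g k + 1`.  (State: the pair `(Y k, y k)`; use a subtype and `Nat.rec`, or
`exists_seq`-like dependent choice.)  Start: `g 0 = 0`, nothing to check.  Step: apply `Blocks.can`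
to `δ n = y k n - Y k n`; the new difference is at most `2 g k / 16^(s k * n)` for
`2 ≤ n ≤ g k + 1`, and this is `≤ rho (g (k+1)) / 16^(s (k+1) * n)` because
`s (k+1) n = s k n + (g k + 1) n`, `n ≤ g k + 1`, and
`rho (g (k+1)) ≥ rho (g k) ≥ 2 g k 16^((g k + 1) (g k + 1))`.  If `g (k+1) = g k + 1` there is one new
coordinate `n = g k + 2`: by density choose `y n ∈ T n` with
`|y n - Y (k+1) n| ≤ rho (g (k+1)) / 16^(s (k+1) n)`.  The numbers `y k n` do not change once they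
are chosen (`n ≤ g k + 1`); as `g → ∞` every `n ≥ 2` is chosen at some time: this defines `y n`.
Convergence: `rho (g k) / 16^(s k * n) ≤ 16^(s k) / 16^(2 s k) ≤ 16^(-k)` (`small`, `s k ≥ k`). -/
def StRec : Prop := ∀ (v : ℕ → ℕ → ℝ) (g s : ℕ → ℕ) (F : ℕ → Finset ℕ), Blocks v g s F →
  ∀ T : ℕ → Set ℝ, (∀ n, Dense (T n)) → ∃ S : ℕ → Finset ℕ, (∀ k, S k ⊆ F k) ∧
  ∀ n, 2 ≤ n → ∃ y ∈ T n, Tendsto (fun k => ∑ j ∈ Finset.range k,
    (∑ p ∈ S j, v n p - 1 / 2 * ∑ p ∈ F j, v n p)) atTop (𝓝 y)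

/-- SUMS OVER UNIONS (no hypotheses).  `Asy v` gives `|v n p| ≤ 2 / p^n` for large `p`, so `v n` is
absolutely summable on `ℕ` (`n ≥ 2`), hence so is every `E.indicator (v n)`.  For `E = ⋃_k S k`,
`S k ⊆ [16^(s k), 16^(s (k+1)))` (`loc`; disjoint intervals which cover everything as
`s (k + 1) ≥ s k + 1`): `∑_(j<k) ∑_(p ∈ S j) v n p = ∑_(p < 16^(s k)) E.indicator (v n) p`
(the elements below `16^(s 0)` do not occur), a subsequence of the partial sums
(`HasSum.tendsto_sum_nat`). -/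
def StSum : Prop := ∀ (v : ℕ → ℕ → ℝ), Asy v → ∀ (g s : ℕ → ℕ) (F : ℕ → Finset ℕ),
  Blocks v g s F → ∀ S : ℕ → Finset ℕ, (∀ k, S k ⊆ F k) → ∀ n, 2 ≤ n →
  Summable ((⋃ k, (S k : Set ℕ)).indicator (v n)) ∧
  Tendsto (fun k => ∑ j ∈ Finset.range k, ∑ p ∈ S j, v n p) atTop
    (𝓝 (∑' p : ℕ, (⋃ k, (S k : Set ℕ)).indicator (v n) p))

/-- THE ABSTRACT THEOREM (uses `StBls`, `StRec`, `StSum`).  Blocks from `StBls`.  By `StSum` (for
`S = F`) the sums `1/2 ∑_(j<k) ∑_(p ∈ F j) v n p` converge to some `B n`.  Apply `StRec` to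
`T' n = {y | y + B n ∈ T n}` (dense) and put `E = ⋃_k S k`: the sum of `v n` over `E` is `y + B n`. -/
def StAbs : Prop := ∀ v : ℕ → ℕ → ℝ, Asy v → ∀ A : Set ℕ, Rich A → ∀ T : ℕ → Set ℝ,
  (∀ n, Dense (T n)) → ∃ E ⊆ A, ∀ n, 2 ≤ n →
    Summable (E.indicator (v n)) ∧ ∑' p : ℕ, E.indicator (v n) p ∈ T n

/-- EULER PRODUCT (no hypotheses).  For a set `E` of primes the function `f k = k^(-n)` if no `p ∈ E`
divides `k` and `k ≥ 1`, `0` otherwise, is completely multiplicative, and the Euler product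
(`EulerProduct.eulerProduct_completely_multiplicative_tprod` or `_hasProd`) gives
`zetaP E n = ∏_(p prime) (1 - f p)⁻¹`, `f p = 0` for `p ∈ E` and `p^(-n)` for `p ∉ E`; the same for
`E = ∅`.  Take logarithms (`Real.exp` of the sum of `vz n p` over the primes outside `E`, all sums
absolutely convergent: `0 ≤ vz n p ≤ 2 / p^n`), or compare the finite products
over the primes `< N` and let `N → ∞`. -/
def StEul : Prop := ∀ E : Set ℕ, (∀ p ∈ E, p.Prime) → ∀ n, 2 ≤ n →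
  0 < zetaP ∅ n ∧ zetaP E n = zetaP ∅ n * Real.exp (-∑' p : ℕ, E.indicator (vz n) p)

/-- THE THEOREM FOR `A` (uses `StAsy`, `StAbs`, `StEul`).  For `n ≥ 2` let
`T n = {τ | zetaP ∅ n * exp (-τ) ∈ D n}`: dense in `ℝ` (for `a < b` take `y ∈ D n` between
`zetaP ∅ n * exp (-b)` and `zetaP ∅ n * exp (-a)`, `τ = log (zetaP ∅ n / y)`); for `n < 2` let
`T n = univ`. -/
def StTh : Prop := ∀ A : Set ℕ, (∀ p ∈ A, p.Prime) → Rich A → ∀ D : ℕ → Set ℝ, DenseP D →
  ∃ E ⊆ A, ∀ n, 2 ≤ n → zetaP E n ∈ D n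

/-- MANY PRIMES (no hypotheses).  `θ(4x) ≥ 4 x log 2 - o(x)` (`Chebyshev.theta_ge`),
`θ(x) ≤ x log 4 = 2 x log 2` (`Chebyshev.theta_le_log4_mul_x`), so the sum of `log p` over the primes
in `[x, 4x)` (`4x` is not a prime) is at least `x log 2` for large `x`; every term is at most
`log (4x)`, so there are at least `x log 2 / log (4x) → ∞` of them. -/
def StPr : Prop := RichA {p : ℕ | p.Prime}

/-- THIN RICH SETS (uses `StPr`, `StSlow`).  For every `d` let `N d` be a number such that for all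
`j ≥ N d` there are `d` primes in `[16^j, 4 * 16^j)` (`StPr` with `x = 16^j`) and `h x ≥ 2 d` for all
`x ≥ 16^(N d)`.  `g` from `StSlow`.  `A` consists of `g k` primes in `[16^k, 4 * 16^k)` for every `k`
with `g k ≥ 1` (choose finite sets `F k`, `A = ⋃ F k`); it is `Rich` because `g → ∞`.  For
`16^K ≤ x < 16^(K+1)`, `K ≥ 1`, `g K ≥ 1`: the number of elements of `A` up to `x` is at most
`∑_(k ≤ K) g k ≤ (K + 1) g K ≤ 2 K g K ≤ K h x ≤ h x log x`, as `log x ≥ K log 16 ≥ K`. -/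
def StThin : Prop := ∀ h : ℕ → ℝ, Tendsto h atTop atTop → ∃ A : Set ℕ, (∀ p ∈ A, p.Prime) ∧
  Rich A ∧ ThinA h A

/-- RATIONALITY PATTERNS (uses `StEul`).  `D n = {r π^n : r ∈ ℚ, r > 0}` for even `n` and for `n ∈ N`, and
`D n = {r √(√2) π^n : r ∈ ℚ, r > 0}` for odd `n ∉ N`: dense in `(0, oo)`.  If `zetaP E n ∈ D n` for all
`n ≥ 2` then `zetaP E (2m) = r π^(2m)`; for odd `n ≥ 3` the quotient `zetaP E (2n) / zetaP E n ^ 2` is
`r / r'^2` if `n ∈ N`, and `r / (√2 r'^2)`, irrational, if `n ∉ N`. -/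
def StPat : Prop := ∀ N : Set ℕ, ∃ D : ℕ → Set ℝ, DenseP D ∧ ∀ Z : ℕ → ℝ,
  (∀ n, 2 ≤ n → Z n ∈ D n) → (∀ m, 1 ≤ m → ∃ r : ℚ, Z (2 * m) = r * Real.pi ^ (2 * m)) ∧
    ∀ n, 3 ≤ n → Odd n → ((∃ r : ℚ, Z (2 * n) / Z n ^ 2 = r) ↔ n ∈ N)

/-- ASSEMBLY (uses `StTh`, `StThin`, `StPat`).  `RichA A` gives `Rich A` (`x = 16^j`); subsets of thin
sets are thin. -/
def StMain : Prop := Main

end Pool.Agent.TE
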