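import Mathlib
import Pool.Agent.Work.MP_f1a024_nt.TE.Stmts

set_option autoImplicit false

/-!
# MP_f1a024_nt, block TE, item Pat: rationality patterns
-/

open Filter Topology

namespace Pool.Agent.TE

namespace ITPat

/-- positive rational multiples of `c π^n` -/
def Mul (c : ℝ) (n : ℕ) : Set ℝ := {y | ∃ r : ℚ, 0 < r ∧ y = r * (c * Real.pi ^ n)}

theorem dense (c : ℝ) (hc : 0 < c) (n : ℕ) (a b : ℝ) (ha : 0 < a) (hab : a < b) :
    ∃ y ∈ Mul c n, a < y ∧ y < b := by
  have hπ : 0 < c * Real.pi ^ n := mul_pos hc (pow_pos Real.pi_pos n)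
  obtain ⟨r, hr1, hr2⟩ := exists_rat_btwn (div_lt_div_of_pos_right hab hπ)
  refine ⟨r * (c * Real.pi ^ n), ⟨r, ?_, rfl⟩, ?_, ?_⟩
  · have h1 : (0 : ℝ) < r := lt_trans (div_pos ha hπ) hr1
    exact_mod_cast h1
  · exact (div_lt_iff₀ hπ).1 hr1
  · exact (lt_div_iff₀ hπ).1 hr2

end ITPat

open ITPat in
/-- Item Pat. -/
theorem pr_Pat : StPat := by
  classical
  intro N
  set t : ℝ := Real.sqrt (Real.sqrt 2) with ht
  have ht0 : 0 < t := Real.sqrt_pos.2 (Real.sqrt_pos.2 (by norm_num))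
  have ht2 : t ^ 2 = Real.sqrt 2 := Real.sq_sqrt (Real.sqrt_nonneg 2)
  refine ⟨fun n => if Even n ∨ n ∈ N then Mul 1 n else Mul t n, ?_, ?_⟩
  · intro n a b ha hab
    by_cases h : Even n ∨ n ∈ N
    · simp only [if_pos h]
      exact dense 1 one_pos n a b ha hab
    · simp only [if_neg h]
      exact dense t ht0 n a b ha hab
  · intro Z hZ
    have heven : ∀ m, 1 ≤ m → ∃ r : ℚ, 0 < r ∧ Z (2 * m) = r * Real.pi ^ (2 * m) := by
      intro m hm
      have h1 := hZ (2 * m) (by omega)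
      have h2 : Even (2 * m) ∨ 2 * m ∈ N := Or.inl (even_two_mul m)
      simp only [if_pos h2] at h1
      obtain ⟨r, hr, h3⟩ := h1
      exact ⟨r, hr, by rw [h3, one_mul]⟩
    refine ⟨fun m hm => ?_, fun n hn hodd => ?_⟩
    · obtain ⟨r, -, h⟩ := heven m hm
      exact ⟨r, h⟩
    · obtain ⟨r, hr, h2n⟩ := heven n (by omega)
      have hne : ¬ Even n := Nat.not_even_iff_odd.2 hodd
      have hn1 := hZ n (by omega)
      have hπ : Real.pi ^ n ≠ 0 := pow_ne_zero n Real.pi_ne_zero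
      have hπ2 : Real.pi ^ (2 * n) = (Real.pi ^ n) ^ 2 := by rw [← pow_mul, mul_comm]
      by_cases h : n ∈ N
      · have h2 : Even n ∨ n ∈ N := Or.inr h
        simp only [if_pos h2] at hn1
        obtain ⟨r', hr', h3⟩ := hn1
        refine ⟨fun _ => h, fun _ => ⟨r / r' ^ 2, ?_⟩⟩
        have h4 : (r' : ℝ) ≠ 0 := by exact_mod_cast hr'.ne'
        rw [h2n, h3, hπ2]
        push_cast
        field_simp
      · have h2 : ¬ (Even n ∨ n ∈ N) := fun h5 => h5.elim hne h
        simp only [if_neg h2] at hn1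
        obtain ⟨r', hr', h3⟩ := hn1
        refine ⟨fun hq => ?_, fun h5 => absurd h5 h⟩
        exfalso
        obtain ⟨q, hq⟩ := hq
        have h4 : (r' : ℝ) ≠ 0 := by exact_mod_cast hr'.ne'
        have h5 : (r : ℝ) ≠ 0 := by exact_mod_cast hr.ne'
        have hs : Real.sqrt 2 ≠ 0 := (Real.sqrt_pos.2 (by norm_num)).ne'
        have h6 : (r : ℝ) / (r' ^ 2 * Real.sqrt 2) = q := by
          rw [← hq, h2n, h3, hπ2, ← ht2]
          have ht0' : t ≠ 0 := ht0.ne'
          field_simp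
        have h7 : (q : ℝ) ≠ 0 := by
          rw [← h6]
          positivity
        have h8 : Real.sqrt 2 = ((r / (r' ^ 2 * q) : ℚ) : ℝ) := by
          push_cast
          rw [← h6]
          field_simp
        exact irrational_sqrt_two ⟨_, h8.symm⟩

end Pool.Agent.TE
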