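import Mathlib
import Pool.Agent.Work.MP_f1a024_nt.TE.Stmts

set_option autoImplicit false

/-!
# MP_f1a024_nt, block TE, item Pr: many primes
-/

open Filter Topology

namespace Pool.Agent.TE

namespace ITPr

/-- the elementary inequality -/
theorem ineq (m : ℕ) (x : ℕ) (hx : (40 + 16 * m) ^ 4 ≤ 4 * x) :
    (m : ℝ) * Real.log (4 * x) ≤ ((4 * x : ℕ) : ℝ) * Real.log 2 - Real.log ((4 * x : ℕ) + 1) -
      2 * Real.sqrt ((4 * x : ℕ) : ℝ) * Real.log ((4 * x : ℕ) : ℝ) - Real.log 4 * x := by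
  set t : ℝ := Real.sqrt (Real.sqrt (4 * x)) with ht
  have ht0 : 0 ≤ t := Real.sqrt_nonneg _
  have ht2 : t ^ 2 = Real.sqrt (4 * x) := Real.sq_sqrt (Real.sqrt_nonneg _)
  have ht4 : t ^ 4 = 4 * x := by
    have : t ^ 4 = (t ^ 2) ^ 2 := by ring
    rw [this, ht2, Real.sq_sqrt (by positivity)]
  have htm : 40 + 16 * (m : ℝ) ≤ t := by
    have h1 : (40 + 16 * (m : ℝ)) ^ 4 ≤ t ^ 4 := by
      rw [ht4]
      exact_mod_cast hx
    exact le_of_pow_le_pow_left₀ (by norm_num) ht0 h1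
  have hm0 : (0 : ℝ) ≤ m := Nat.cast_nonneg m
  have ht1 : 40 ≤ t := by linarith
  have hlt : Real.log t ≤ t := (Real.log_le_sub_one_of_pos (by linarith)).trans (by linarith)
  have hlog : Real.log (4 * x) = 4 * Real.log t := by
    rw [← ht4, Real.log_pow]; norm_num
  have hlog1 : Real.log ((4 * x : ℝ) + 1) ≤ 1 + 4 * t := by
    rw [← ht4]
    have h1 : t ^ 4 + 1 ≤ 2 * t ^ 4 := by nlinarith [pow_le_pow_left₀ (by norm_num) ht1 4]
    have h2 : Real.log (t ^ 4 + 1) ≤ Real.log (2 * t ^ 4) := Real.log_le_log (by positivity) h1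
    rw [Real.log_mul (by norm_num) (by positivity), Real.log_pow] at h2
    have h3 := Real.log_two_lt_d9
    push_cast at h2
    linarith
  have hl2 : (1 : ℝ) / 2 ≤ Real.log 2 := by
    have := Real.log_two_gt_d9
    linarith
  have hl4 : Real.log 4 = 2 * Real.log 2 := by
    rw [show (4 : ℝ) = 2 ^ 2 by norm_num, Real.log_pow]; norm_num
  have hx4 : (x : ℝ) = t ^ 4 / 4 := by rw [ht4]; ring
  push_cast
  rw [hlog, ← ht2, hl4]
  have e1 : (m : ℝ) * (4 * Real.log t) ≤ 4 * m * t := by nlinarith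
  have e2 : 2 * t ^ 2 * (4 * Real.log t) ≤ 8 * t ^ 3 := by nlinarith [sq_nonneg t]
  have e3 : 4 * (x : ℝ) * Real.log 2 - 2 * Real.log 2 * x ≥ t ^ 4 / 4 := by
    rw [hx4]
    nlinarith [pow_nonneg ht0 4]
  have e4 : 4 * m * t + (1 + 4 * t) + 8 * t ^ 3 ≤ t ^ 4 / 4 := by
    have h1 : t ^ 3 * (10 + 4 * m) ≤ t ^ 3 * (t / 4) :=
      mul_le_mul_of_nonneg_left (by linarith) (by positivity)
    have h2 : t ≤ t ^ 3 := by nlinarith
    have h3 : 4 * m * t ≤ 4 * m * t ^ 3 := by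
      apply mul_le_mul_of_nonneg_left h2
      positivity
    have h4 : 1 + 4 * t ≤ 2 * t ^ 3 := by nlinarith
    nlinarith
  linarith

end ITPr

open ITPr in
/-- Item Pr. -/
theorem pr_Pr : StPr := by
  classical
  intro m
  filter_upwards [eventually_ge_atTop ((40 + 16 * m) ^ 4)] with x hx
  have hx4 : (40 + 16 * m) ^ 4 ≤ 4 * x := by omega
  have hx1 : 1 ≤ x := by
    have : 1 ≤ (40 + 16 * m) ^ 4 := Nat.one_le_pow _ _ (by omega)
    omega
  set F0 : Finset ℕ := (Finset.Ioc x (4 * x)).filter Nat.Prime with hF0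
  have hsum : Chebyshev.theta ((4 * x : ℕ) : ℝ) - Chebyshev.theta (x : ℝ) =
      ∑ p ∈ F0, Real.log p := by
    unfold Chebyshev.theta
    rw [Nat.floor_natCast, Nat.floor_natCast]
    have h1 : (Finset.Ioc 0 (4 * x)).filter Nat.Prime =
        (Finset.Ioc 0 x).filter Nat.Prime ∪ F0 := by
      ext p
      simp only [hF0, Finset.mem_filter, Finset.mem_union, Finset.mem_Ioc]
      constructor
      · rintro ⟨⟨h1, h2⟩, h3⟩
        by_cases h4 : p ≤ x
        · exact Or.inl ⟨⟨h1, h4⟩, h3⟩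
        · exact Or.inr ⟨⟨by omega, h2⟩, h3⟩
      · rintro (⟨⟨h1, h2⟩, h3⟩ | ⟨⟨h1, h2⟩, h3⟩)
        · exact ⟨⟨h1, by omega⟩, h3⟩
        · exact ⟨⟨by omega, h2⟩, h3⟩
    have h2 : Disjoint ((Finset.Ioc 0 x).filter Nat.Prime) F0 := by
      rw [Finset.disjoint_left]
      intro p hp hp'
      simp only [hF0, Finset.mem_filter, Finset.mem_Ioc] at hp hp'
      omega
    rw [h1, Finset.sum_union h2]
    ring
  have hge := Chebyshev.theta_ge (4 * x)
  have hle := Chebyshev.theta_le_log4_mul_x (x := (x : ℝ)) (by positivity)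
  have hineq := ineq m x hx4
  have hup : ∑ p ∈ F0, Real.log p ≤ F0.card * Real.log (4 * x) := by
    rw [← nsmul_eq_mul]
    refine Finset.sum_le_card_nsmul _ _ _ fun p hp => ?_
    simp only [hF0, Finset.mem_filter, Finset.mem_Ioc] at hp
    refine Real.log_le_log (by exact_mod_cast hp.2.pos) ?_
    exact_mod_cast hp.1.2
  have hlogpos : 0 < Real.log (4 * x) := by
    refine Real.log_pos ?_
    have : (1 : ℝ) ≤ x := by exact_mod_cast hx1
    linarith
  have hcard : m ≤ F0.card := by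
    have h1 : (m : ℝ) * Real.log (4 * x) ≤ F0.card * Real.log (4 * x) := by linarith
    have h2 : (m : ℝ) ≤ F0.card := le_of_mul_le_mul_right h1 hlogpos
    exact_mod_cast h2
  obtain ⟨F, hF, hFc⟩ := Finset.exists_subset_card_eq hcard
  refine ⟨F, hFc, fun p hp => ?_⟩
  have h1 := hF hp
  simp only [hF0, Finset.mem_filter, Finset.mem_Ioc] at h1
  refine ⟨h1.2, h1.1.1.le, lt_of_le_of_ne h1.1.2 ?_⟩
  intro h2
  have h3 : 2 ∣ p := by rw [h2]; exact ⟨2 * x, by ring⟩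
  have h4 := (Nat.prime_dvd_prime_iff_eq Nat.prime_two h1.2).1 h3
  omega

end Pool.Agent.TE
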