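import Pool.Agent.Work.MP_f1a024_nt.TE.Stmts

set_option autoImplicit false

/-!
# Rec: the recursion
-/

open Filter Topology

namespace Pool.Agent.TE

namespace ITRec

/-- the state at time `k` -/
structure St (g s : ℕ → ℕ) (T : ℕ → Set ℝ) (k : ℕ) : Type where
  Y : ℕ → ℝ
  y : ℕ → ℝ
  inv : ∀ n, 2 ≤ n → n ≤ g k + 1 → y n ∈ T n ∧ |y n - Y n| ≤ rho (g k) / 16 ^ (s k * n)

theorem rho_mono {a b : ℕ} (h : a ≤ b) : rho a ≤ rho b := by
  unfold rho
  have h1 : (a : ℝ) ≤ b := by exact_mod_cast h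
  have h2 : (16 : ℝ) ^ ((a + 1) * (a + 2)) ≤ 16 ^ ((b + 1) * (b + 2)) :=
    pow_le_pow_right₀ (by norm_num) (Nat.mul_le_mul (by omega) (by omega))
  have h3 : (0 : ℝ) ≤ (a : ℝ) := Nat.cast_nonneg a
  have h4 : (0 : ℝ) ≤ 16 ^ ((a + 1) * (a + 2)) := by positivity
  nlinarith

theorem rho_pos (d : ℕ) : 0 < rho d := by
  unfold rho
  positivity

/-- the error of one block is admissible for the next one -/
theorem err {d d' s n : ℕ} (hd : d ≤ d') (hn : n ≤ d + 1) :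
    2 * (d : ℝ) / 16 ^ (s * n) ≤ rho d' / 16 ^ ((s + d + 1) * n) := by
  refine le_trans ?_ (div_le_div_of_nonneg_right (rho_mono hd) (by positivity))
  have h1 : (16 : ℝ) ^ ((s + d + 1) * n) = 16 ^ (s * n) * 16 ^ ((d + 1) * n) := by
    rw [← pow_add]
    congr 1
    ring
  rw [h1, div_le_div_iff₀ (by positivity) (by positivity)]
  have h2 : (16 : ℝ) ^ ((d + 1) * n) ≤ 16 ^ ((d + 1) * (d + 2)) :=
    pow_le_pow_right₀ (by norm_num) (Nat.mul_le_mul le_rfl (by omega))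
  have h3 : 2 * (d : ℝ) * 16 ^ ((d + 1) * n) ≤ rho d := by
    unfold rho
    have h4 : (0 : ℝ) ≤ (d : ℝ) := Nat.cast_nonneg d
    have h5 : (0 : ℝ) ≤ 16 ^ ((d + 1) * n) := by positivity
    nlinarith
  have h6 : (0 : ℝ) ≤ 16 ^ (s * n) := by positivity
  calc 2 * (d : ℝ) * (16 ^ (s * n) * 16 ^ ((d + 1) * n))
      = (2 * (d : ℝ) * 16 ^ ((d + 1) * n)) * 16 ^ (s * n) := by ring
    _ ≤ rho d * 16 ^ (s * n) := mul_le_mul_of_nonneg_right h3 h6

theorem step {v : ℕ → ℕ → ℝ} {g s : ℕ → ℕ} {F : ℕ → Finset ℕ} (hB : Blocks v g s F)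
    {T : ℕ → Set ℝ} (hT : ∀ n, Dense (T n)) (k : ℕ) (σ : St g s T k) :
    ∃ q : Finset ℕ × St g s T (k + 1), q.1 ⊆ F k ∧
      (∀ n, q.2.Y n = σ.Y n + (∑ p ∈ q.1, v n p - 1 / 2 * ∑ p ∈ F k, v n p)) ∧
      ∀ n, 2 ≤ n → n ≤ g k + 1 → q.2.y n = σ.y n := by
  obtain ⟨S, hS, hS2⟩ := hB.can k (fun n => σ.y n - σ.Y n) fun n h2 hn => (σ.inv n h2 hn).2
  set Y' : ℕ → ℝ := fun n => σ.Y n + (∑ p ∈ S, v n p - 1 / 2 * ∑ p ∈ F k, v n p) with hY'
  have hden : ∀ n : ℕ, ∃ z ∈ T n, |z - Y' n| ≤ rho (g (k + 1)) / 16 ^ (s (k + 1) * n) := by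
    intro n
    have hε : 0 < rho (g (k + 1)) / 16 ^ (s (k + 1) * n) := by
      have := rho_pos (g (k + 1))
      positivity
    obtain ⟨z, hz, hd⟩ := (hT n).exists_dist_lt (Y' n) hε
    refine ⟨z, hz, ?_⟩
    rw [dist_comm, Real.dist_eq] at hd
    exact hd.le
  choose z hz hz2 using hden
  refine ⟨(S, ⟨Y', fun n => if n ≤ g k + 1 then σ.y n else z n, ?_⟩), hS, fun n => rfl, ?_⟩
  · intro n h2 hn
    by_cases h : n ≤ g k + 1
    · simp only [if_pos h]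
      refine ⟨(σ.inv n h2 h).1, ?_⟩
      have h3 := hS2 n h2 h
      have h4 : |σ.y n - Y' n| = |∑ p ∈ S, v n p - 1 / 2 * ∑ p ∈ F k, v n p - (σ.y n - σ.Y n)| := by
        rw [← abs_neg]
        congr 1
        rw [hY']
        ring
      rw [h4]
      refine h3.trans ?_
      have h5 := err (s := s k) (hB.mono k) h
      rw [hB.s_succ k]
      exact h5
    · simp only [if_neg h]
      exact ⟨hz n, hz2 n⟩
  · intro n h2 hn
    simp only [if_pos hn]

end ITRec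

theorem pr_Rec : StRec := by
  intro v g s F hB T hT
  have hgm : Monotone g := monotone_nat_of_le_succ hB.mono
  have hst := fun k σ => ITRec.step hB hT k σ
  choose q hq1 hq2 hq3 using hst
  have h0 : ∀ n, 2 ≤ n → n ≤ g 0 + 1 → (0 : ℝ) ∈ T n ∧
      |(0 : ℝ) - 0| ≤ rho (g 0) / 16 ^ (s 0 * n) := by
    intro n h2 hn
    rw [hB.g0] at hn
    omega
  let sq : ∀ k, ITRec.St g s T k := fun k =>
    Nat.rec (motive := fun k => ITRec.St g s T k) ⟨fun _ => 0, fun _ => 0, h0⟩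
      (fun k σ => (q k σ).2) k
  have hsucc : ∀ k, sq (k + 1) = (q k (sq k)).2 := fun k => rfl
  refine ⟨fun k => (q k (sq k)).1, fun k => hq1 k (sq k), ?_⟩
  have hY : ∀ k n, (sq k).Y n = ∑ j ∈ Finset.range k,
      (∑ p ∈ (q j (sq j)).1, v n p - 1 / 2 * ∑ p ∈ F j, v n p) := by
    intro k n
    induction k with
    | zero => rfl
    | succ k ih => rw [Finset.sum_range_succ, ← ih, hsucc, hq2]
  have hy : ∀ n k, 2 ≤ n → n ≤ g k + 1 → ∀ j, (sq (k + j)).y n = (sq k).y n := by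
    intro n k h2 hn j
    induction j with
    | zero => rfl
    | succ j ih =>
      rw [← ih, ← add_assoc, hsucc]
      exact hq3 _ _ n h2 (hn.trans (Nat.succ_le_succ (hgm (Nat.le_add_right k j))))
  have hsk : ∀ k, k ≤ s k := by
    intro k
    induction k with
    | zero => exact Nat.zero_le _
    | succ k ih => rw [hB.s_succ]; omega
  intro n h2
  obtain ⟨k0, hk0⟩ := (hB.top.eventually_ge_atTop n).exists
  have hn0 : n ≤ g k0 + 1 := by omega
  refine ⟨(sq k0).y n, ((sq k0).inv n h2 hn0).1, ?_⟩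
  have hfun : (fun k => ∑ j ∈ Finset.range k,
      (∑ p ∈ (q j (sq j)).1, v n p - 1 / 2 * ∑ p ∈ F j, v n p)) = fun k => (sq k).Y n := by
    funext k
    rw [hY]
  rw [hfun, tendsto_iff_dist_tendsto_zero]
  have hlim : Tendsto (fun k : ℕ => ((1 : ℝ) / 16) ^ k) atTop (𝓝 0) :=
    tendsto_pow_atTop_nhds_zero_of_lt_one (by norm_num) (by norm_num)
  refine squeeze_zero' (Eventually.of_forall fun k => dist_nonneg) ?_ hlim
  filter_upwards [eventually_ge_atTop k0] with k hk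
  obtain ⟨j, rfl⟩ := Nat.exists_eq_add_of_le hk
  have hn1 : n ≤ g (k0 + j) + 1 := hn0.trans (Nat.succ_le_succ (hgm hk))
  have h3 := ((sq (k0 + j)).inv n h2 hn1).2
  rw [hy n k0 h2 hn0 j] at h3
  rw [dist_comm, Real.dist_eq]
  refine h3.trans ?_
  have hg1 : 1 ≤ g (k0 + j) := by omega
  have h4 := hB.small (k0 + j) hg1
  have h5 : (16 : ℝ) ^ (s (k0 + j) + (k0 + j)) ≤ 16 ^ (s (k0 + j) * n) := by
    refine pow_le_pow_right₀ (by norm_num) ?_
    have h6 := hsk (k0 + j)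
    calc s (k0 + j) + (k0 + j) ≤ s (k0 + j) + s (k0 + j) := by omega
      _ = s (k0 + j) * 2 := by ring
      _ ≤ s (k0 + j) * n := Nat.mul_le_mul le_rfl h2
  have h7 : ((1 : ℝ) / 16) ^ (k0 + j) = 16 ^ (s (k0 + j)) / 16 ^ (s (k0 + j) + (k0 + j)) := by
    rw [pow_add (16 : ℝ), div_pow, one_pow]
    field_simp
  rw [h7]
  exact div_le_div₀ (by positivity) h4 (by positivity) h5

end Pool.Agent.TE
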