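import Pool.Agent.Work.MP_f1a024_nt.TE.Stmts

set_option autoImplicit false

/-!
# MP_f1a024_nt, block TE: item Slow
-/

open Filter Topology

namespace Pool.Agent.TE

namespace ITSlow

/-- the thresholds -/
def M (N : ℕ → ℕ) : ℕ → ℕ
  | 0 => 0
  | d + 1 => max (N (d + 1)) (M N d + 1)

theorem M_succ (N : ℕ → ℕ) (d : ℕ) : M N (d + 1) = max (N (d + 1)) (M N d + 1) := rfl

theorem le_M (N : ℕ → ℕ) (d : ℕ) : d ≤ M N d := by
  induction d with
  | zero => exact Nat.zero_le _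
  | succ d ih =>
    rw [M_succ]
    have h1 := le_max_right (N (d + 1)) (M N d + 1)
    omega

theorem M_lt (N : ℕ → ℕ) (d : ℕ) : M N d + 1 ≤ M N (d + 1) := by
  rw [M_succ]
  exact le_max_right _ _

/-- the slow sequence -/
noncomputable def g (N : ℕ → ℕ) (k : ℕ) : ℕ := Nat.findGreatest (fun d => M N d ≤ k) k

theorem M_g (N : ℕ → ℕ) (k : ℕ) : M N (g N k) ≤ k :=
  Nat.findGreatest_spec (P := fun d => M N d ≤ k) (Nat.zero_le k) (Nat.zero_le k)

theorem le_g (N : ℕ → ℕ) (k d : ℕ) (h : M N d ≤ k) : d ≤ g N k :=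
  Nat.le_findGreatest (P := fun d => M N d ≤ k) ((le_M N d).trans h) h

end ITSlow

theorem pr_Slow : StSlow := by
  intro N
  refine ⟨ITSlow.g N, ?_, fun k => ?_, fun k => ?_, ?_, fun k hk => ?_⟩
  · exact Nat.findGreatest_zero
  · exact ITSlow.le_g N _ _ ((ITSlow.M_g N k).trans (Nat.le_succ k))
  · rcases Nat.eq_zero_or_pos (ITSlow.g N (k + 1)) with h | h
    · rw [h]
      exact Nat.zero_le _
    · obtain ⟨d, hd⟩ := Nat.exists_eq_succ_of_ne_zero h.ne'
      have h1 := ITSlow.M_g N (k + 1)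
      rw [hd] at h1 ⊢
      have h2 := ITSlow.M_lt N d
      have h3 : ITSlow.M N (d + 1) ≤ k + 1 := h1
      have h4 := ITSlow.le_g N k d (by omega)
      exact Nat.succ_le_succ h4
  · refine tendsto_atTop.2 fun d => ?_
    filter_upwards [eventually_ge_atTop (ITSlow.M N d)] with k hk
    exact ITSlow.le_g N k d hk
  · obtain ⟨d, hd⟩ := Nat.exists_eq_succ_of_ne_zero (Nat.one_le_iff_ne_zero.1 hk)
    have h1 := ITSlow.M_g N k
    rw [hd] at h1 ⊢
    have h2 : ITSlow.M N (d + 1) ≤ k := h1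
    rw [ITSlow.M_succ] at h2
    exact (le_max_left _ _).trans h2

end Pool.Agent.TE
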