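import Pool.Agent.Work.MP_f1a024_nt.TE.Stmts

set_option autoImplicit false

/-!
# Sum: sums over unions of blocks
-/

open Filter Topology

namespace Pool.Agent.TE

namespace ITSum

theorem summ (v : ℕ → ℕ → ℝ) (hv : Asy v) (n : ℕ) (h2 : 2 ≤ n) : Summable (v n) := by
  have h1 : Summable (fun p : ℕ => 2 * (1 / (p : ℝ) ^ n)) :=
    (Real.summable_one_div_nat_pow.2 (by omega)).mul_left 2
  refine Summable.of_norm_bounded_eventually_nat h1 ?_
  have h3 := (hv n h2).eventually (Metric.closedBall_mem_nhds 1 one_pos)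
  filter_upwards [h3, eventually_ge_atTop 1] with p hp hp1
  rw [Real.dist_eq] at hp
  have hp0 : (0 : ℝ) < p := by exact_mod_cast hp1
  have h4 : |(p : ℝ) ^ n * v n p| ≤ 2 := by
    have h5 := abs_le.1 hp
    rw [abs_le]
    constructor <;> linarith [h5.1, h5.2]
  rw [abs_mul, abs_of_pos (by positivity)] at h4
  rw [Real.norm_eq_abs, mul_one_div, le_div_iff₀ (by positivity), mul_comm]
  exact h4

end ITSum

theorem pr_Sum : StSum := by
  intro v hv g s F hB S hS n h2
  classical
  set E : Set ℕ := ⋃ k, (S k : Set ℕ) with hE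
  have hsum : Summable (E.indicator (v n)) := (ITSum.summ v hv n h2).indicator E
  refine ⟨hsum, ?_⟩
  have hs1 : ∀ k, s k ≤ s (k + 1) := fun k => by rw [hB.s_succ]; omega
  have hsm : Monotone s := monotone_nat_of_le_succ hs1
  have hsk : ∀ k, k ≤ s k := by
    intro k
    induction k with
    | zero => exact Nat.zero_le _
    | succ k ih => rw [hB.s_succ]; omega
  have hp16 : ∀ {a b : ℕ}, a ≤ b → 16 ^ a ≤ 16 ^ b := fun h => Nat.pow_le_pow_right (by norm_num) h
  have huniq : ∀ (k j p : ℕ), p ∈ S j → 16 ^ s k ≤ p → p < 16 ^ s (k + 1) → j = k := by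
    intro k j p hp h1 h3
    obtain ⟨h4, h5⟩ := hB.loc j p (hS j hp)
    rcases lt_trichotomy j k with h | h | h
    · exact absurd (h5.trans_le (hp16 (hsm (show j + 1 ≤ k from h)))) (not_lt.2 h1)
    · exact h
    · exact absurd (h3.trans_le (hp16 (hsm (show k + 1 ≤ j from h)))) (not_lt.2 h4)
  have hpart : ∀ k, ∑ j ∈ Finset.range k, ∑ p ∈ S j, v n p =
      ∑ p ∈ Finset.range (16 ^ s k), E.indicator (v n) p := by
    intro k
    induction k with
    | zero =>
      rw [Finset.sum_range_zero]
      symm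
      refine Finset.sum_eq_zero fun p hp => ?_
      refine Set.indicator_of_notMem ?_ _
      intro hpE
      obtain ⟨j, hj⟩ := Set.mem_iUnion.1 hpE
      have h4 := (hB.loc j p (hS j hj)).1
      have h5 : 16 ^ s 0 ≤ 16 ^ s j := hp16 (hsm (Nat.zero_le j))
      exact absurd (Finset.mem_range.1 hp) (not_lt.2 (h5.trans h4))
    | succ k ih =>
      rw [Finset.sum_range_succ, ih, ← Finset.sum_range_add_sum_Ico _ (hp16 (hs1 k))]
      congr 1
      have hsub : S k ⊆ Finset.Ico (16 ^ s k) (16 ^ s (k + 1)) := by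
        intro p hp
        exact Finset.mem_Ico.2 (hB.loc k p (hS k hp))
      rw [← Finset.sum_subset hsub]
      · refine Finset.sum_congr rfl fun p hp => ?_
        exact (Set.indicator_of_mem (Set.mem_iUnion.2 ⟨k, hp⟩) _).symm
      · intro p hp hpS
        refine Set.indicator_of_notMem ?_ _
        intro hpE
        obtain ⟨j, hj⟩ := Set.mem_iUnion.1 hpE
        obtain ⟨h6, h7⟩ := Finset.mem_Ico.1 hp
        have h8 := huniq k j p hj h6 h7
        rw [h8] at hj
        exact hpS hj
  have hfun : (fun k => ∑ j ∈ Finset.range k, ∑ p ∈ S j, v n p) =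
      (fun N => ∑ p ∈ Finset.range N, E.indicator (v n) p) ∘ fun k => 16 ^ s k := by
    funext k
    exact hpart k
  rw [hfun]
  refine hsum.hasSum.tendsto_sum_nat.comp ?_
  refine tendsto_atTop_mono (fun k => ?_) tendsto_id
  exact (hsk k).trans (Nat.lt_pow_self (by norm_num : 1 < 16)).le

end Pool.Agent.TE
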