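import Pool.Agent.Work.MP_f1a024_nt.TE.Stmts

set_option autoImplicit false

/-!
# MP_f1a024_nt, block TE, item Th: the theorem for a rich set of primes
-/

open Filter Topology

namespace Pool.Agent.TE

namespace ITTh

/-- the set of logarithms is dense -/
theorem dns (z : ℝ) (hz : 0 < z) (D : Set ℝ)
    (hD : ∀ a b : ℝ, 0 < a → a < b → ∃ y ∈ D, a < y ∧ y < b) :
    Dense {τ : ℝ | z * Real.exp (-τ) ∈ D} := by
  rw [dense_iff_exists_between]
  intro a b hab
  have h1 : 0 < z * Real.exp (-b) := mul_pos hz (Real.exp_pos _)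
  have h2 : z * Real.exp (-b) < z * Real.exp (-a) :=
    mul_lt_mul_of_pos_left (Real.exp_lt_exp.2 (by linarith)) hz
  obtain ⟨y, hy, hy1, hy2⟩ := hD _ _ h1 h2
  have hy0 : 0 < y := h1.trans hy1
  refine ⟨Real.log (z / y), ?_, ?_, ?_⟩
  · show z * Real.exp (-Real.log (z / y)) ∈ D
    rw [Real.exp_neg, Real.exp_log (div_pos hz hy0), inv_div, mul_div_cancel₀ _ hz.ne']
    exact hy
  · rw [Real.lt_log_iff_exp_lt (div_pos hz hy0), lt_div_iff₀ hy0]
    have h3 := mul_lt_mul_of_pos_left hy2 (Real.exp_pos a)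
    have h4 : Real.exp a * (z * Real.exp (-a)) = z := by
      rw [mul_left_comm, ← Real.exp_add, add_neg_cancel, Real.exp_zero, mul_one]
    rwa [h4] at h3
  · rw [Real.log_lt_iff_lt_exp (div_pos hz hy0), div_lt_iff₀ hy0]
    have h3 := mul_lt_mul_of_pos_left hy1 (Real.exp_pos b)
    have h4 : Real.exp b * (z * Real.exp (-b)) = z := by
      rw [mul_left_comm, ← Real.exp_add, add_neg_cancel, Real.exp_zero, mul_one]
    rwa [h4] at h3

end ITTh

theorem pr_Th (hA : StAsy) (hAbs : StAbs) (hE : StEul) : StTh := by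
  classical
  intro A hAp hR D hD
  have hz : ∀ n, 2 ≤ n → 0 < zetaP ∅ n := fun n hn =>
    (hE ∅ (fun p hp => absurd hp (Set.notMem_empty p)) n hn).1
  obtain ⟨E, hEA, h1⟩ := hAbs vz hA A hR
    (fun n => if 2 ≤ n then {τ : ℝ | zetaP ∅ n * Real.exp (-τ) ∈ D n} else Set.univ) (by
      intro n
      by_cases hn : 2 ≤ n
      · rw [if_pos hn]
        exact ITTh.dns _ (hz n hn) _ (hD n)
      · rw [if_neg hn]
        exact dense_univ)
  refine ⟨E, hEA, fun n hn => ?_⟩
  have h2 := (h1 n hn).2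
  rw [if_pos hn] at h2
  rw [(hE E (fun p hp => hAp p (hEA hp)) n hn).2]
  exact h2

end Pool.Agent.TE
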