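import Pool.Agent.Work.MP_f1a024_nt.TE.Stmts

set_option autoImplicit false

/-!
# MP_f1a024_nt, block TE, item Thin: thin rich sets of primes
-/

open Filter Topology

namespace Pool.Agent.TE

namespace ITThin

theorem le_pow16 (j : ℕ) : j ≤ 16 ^ j := (Nat.lt_pow_self (by norm_num : 1 < 16)).le

end ITThin

open ITThin in
/-- Item Thin. -/
theorem pr_Thin (hP : StPr) (hS : StSlow) : StThin := by
  classical
  intro h hh
  -- the numbers `N d`
  have hN : ∀ d : ℕ, ∃ N : ℕ, (∀ j, N ≤ j → ∃ F : Finset ℕ, F.card = d ∧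
      ∀ p ∈ F, p.Prime ∧ 16 ^ j ≤ p ∧ p < 4 * 16 ^ j) ∧ ∀ x, 16 ^ N ≤ x → 2 * (d : ℝ) ≤ h x := by
    intro d
    obtain ⟨x0, hx0⟩ := eventually_atTop.1 (hP d)
    obtain ⟨x1, hx1⟩ := eventually_atTop.1 (hh.eventually_ge_atTop (2 * (d : ℝ)))
    refine ⟨max x0 x1, fun j hj => ?_, fun x hx => ?_⟩
    · obtain ⟨F, hF, hF1⟩ := hx0 (16 ^ j) (((le_max_left _ _).trans hj).trans (le_pow16 j))
      exact ⟨F, hF, fun p hp => hF1 p hp⟩
    · exact hx1 x ((le_max_right x0 x1).trans ((le_pow16 _).trans hx))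
  choose N hN1 hN2 using hN
  obtain ⟨g, -, gmono, -, gtop, gN⟩ := hS N
  have gm : Monotone g := monotone_nat_of_le_succ gmono
  have hF : ∀ k, ∃ F : Finset ℕ, F.card = g k ∧ ∀ p ∈ F, p.Prime ∧ 16 ^ k ≤ p ∧ p < 4 * 16 ^ k := by
    intro k
    rcases Nat.eq_zero_or_pos (g k) with h0 | h0
    · exact ⟨∅, by rw [h0]; rfl, by simp⟩
    · exact hN1 (g k) k (gN k h0)
  choose F hF1 hF2 using hF
  refine ⟨{p | ∃ k, p ∈ F k}, ?_, ?_, ?_⟩
  · rintro p ⟨k, hk⟩
    exact (hF2 k p hk).1
  · intro m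
    filter_upwards [gtop.eventually_ge_atTop m] with j hj
    obtain ⟨F', hF', hF'c⟩ := Finset.exists_subset_card_eq (s := F j) (n := m) (by rw [hF1]; exact hj)
    exact ⟨F', hF'c, fun p hp => ⟨⟨j, hF' hp⟩, (hF2 j p (hF' hp)).2⟩⟩
  · have hlog : Tendsto (fun x => Nat.log 16 x) atTop atTop := by
      refine tendsto_atTop.2 fun b => ?_
      filter_upwards [eventually_ge_atTop (16 ^ b)] with x hx
      exact Nat.le_log_of_pow_le (by norm_num) hx
    have e1 := hlog.eventually (gtop.eventually_ge_atTop 1)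
    filter_upwards [e1, hlog.eventually_ge_atTop 1, eventually_ge_atTop 1] with x hx1 hx2 hx3 G hG
    set K := Nat.log 16 x with hK
    have hKx : 16 ^ K ≤ x := Nat.pow_log_le_self 16 (by omega)
    have hKx' : x < 16 ^ (K + 1) := Nat.lt_pow_succ_log_self (by norm_num) x
    have hsub : G ⊆ (Finset.range (K + 1)).biUnion F := by
      intro p hp
      obtain ⟨⟨k, hk⟩, hpx⟩ := hG p hp
      rw [Finset.mem_biUnion]
      refine ⟨k, ?_, hk⟩
      rw [Finset.mem_range]
      have h1 := (hF2 k p hk).2.1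
      exact (Nat.pow_lt_pow_iff_right (by norm_num : 1 < 16)).1 ((h1.trans hpx).trans_lt hKx')
    have hcard : G.card ≤ (K + 1) * g K := by
      calc G.card ≤ ((Finset.range (K + 1)).biUnion F).card := Finset.card_le_card hsub
        _ ≤ ∑ k ∈ Finset.range (K + 1), (F k).card := Finset.card_biUnion_le
        _ ≤ ∑ k ∈ Finset.range (K + 1), g K := by
            refine Finset.sum_le_sum fun k hk => ?_
            rw [hF1]
            exact gm (by rw [Finset.mem_range] at hk; omega)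
        _ = (K + 1) * g K := by rw [Finset.sum_const, Finset.card_range, smul_eq_mul]
    have hh2 : 2 * (g K : ℝ) ≤ h x := by
      refine hN2 (g K) x (le_trans ?_ hKx)
      exact Nat.pow_le_pow_right (by norm_num) (gN K hx1)
    have hlogx : (K : ℝ) ≤ Real.log x := by
      have h1 : ((16 : ℝ)) ^ K ≤ x := by exact_mod_cast hKx
      have h2 := Real.log_le_log (by positivity) h1
      rw [Real.log_pow] at h2
      have h3 : (1 : ℝ) ≤ Real.log 16 := by
        rw [Real.le_log_iff_exp_le (by norm_num)]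
        have := Real.exp_one_lt_d9
        linarith
      have h4 : (K : ℝ) * 1 ≤ K * Real.log 16 := mul_le_mul_of_nonneg_left h3 (by positivity)
      linarith
    have hK1 : (1 : ℝ) ≤ K := by exact_mod_cast hx2
    have hg0 : (0 : ℝ) ≤ g K := by positivity
    have hc : (G.card : ℝ) ≤ (K + 1) * g K := by exact_mod_cast hcard
    calc (G.card : ℝ) ≤ (K + 1) * g K := hc
      _ ≤ (2 * g K) * K := by nlinarith
      _ ≤ h x * Real.log x := mul_le_mul hh2 hlogx (by positivity) (by linarith)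

end Pool.Agent.TE
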