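import Pool.Agent.Work.MP_f1a024_nt.TE.Stmts

set_option autoImplicit false

open Filter Topology Metric

namespace Pool.Agent.TE

namespace ITVdm

/-- the unperturbed matrix -/
noncomputable def V {d : ℕ} (u : Fin d → ℝ) : Fin d → Fin d → ℝ :=
  fun n i => 1 / (u i) ^ ((n : ℕ) + 2)

/-- the compact set of the parameters -/
def U (d : ℕ) : Set (Fin d → ℝ) :=
  Set.univ.pi fun i : Fin d => Set.Icc ((16 : ℝ) ^ (i : ℕ)) (4 * 16 ^ (i : ℕ))

theorem pos {d : ℕ} {u : Fin d → ℝ} (hu : u ∈ U d) (i : Fin d) : 0 < u i := by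
  have h1 := (hu i (Set.mem_univ i)).1
  have h2 : (0 : ℝ) < 16 ^ (i : ℕ) := by positivity
  exact h2.trans_le h1

theorem det_ne {d : ℕ} {u : Fin d → ℝ} (hu : u ∈ U d) : (Matrix.of (V u)).det ≠ 0 := by
  have h1 : Matrix.of (V u) = (Matrix.diagonal (fun i => (1 / u i) ^ 2) *
      Matrix.vandermonde (fun i => 1 / u i)).transpose := by
    ext n i
    rw [Matrix.transpose_apply, Matrix.diagonal_mul, Matrix.vandermonde_apply, Matrix.of_apply, V,
      pow_add, one_div, mul_inv, one_div, inv_pow, inv_pow, mul_comm]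
  rw [h1, Matrix.det_transpose, Matrix.det_mul, Matrix.det_diagonal]
  refine mul_ne_zero (Finset.prod_ne_zero_iff.2 fun i _ => ?_) ?_
  · have := pos hu i
    positivity
  · rw [Matrix.det_vandermonde_ne_zero_iff]
    have h2 : StrictMono u := by
      intro i j hij
      have h3 := (hu i (Set.mem_univ i)).2
      have h4 := (hu j (Set.mem_univ j)).1
      have h5 : (16 : ℝ) ^ ((i : ℕ) + 1) ≤ 16 ^ (j : ℕ) :=
        pow_le_pow_right₀ (by norm_num) hij
      have h6 : (0 : ℝ) < 16 ^ (i : ℕ) := by positivity
      rw [pow_succ] at h5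
      linarith
    intro i j hij
    have h7 : u i = u j := by
      simpa using hij
    exact h2.injective h7

theorem contV (d : ℕ) : ContinuousOn (V (d := d)) (U d) := by
  refine continuousOn_pi.2 fun n => continuousOn_pi.2 fun i => ?_
  unfold V
  refine ContinuousOn.div continuousOn_const ?_ fun u hu => ?_
  · exact ((continuous_apply i).pow _).continuousOn
  · exact pow_ne_zero _ (pos hu i).ne'

theorem contDet (d : ℕ) : Continuous fun W : Fin d → Fin d → ℝ => (Matrix.of W).det := by
  have h1 : Continuous fun W : Fin d → Fin d → ℝ => Matrix.of W := continuous_id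
  exact h1.matrix_det

theorem contAdj (d : ℕ) (i n : Fin d) :
    Continuous fun W : Fin d → Fin d → ℝ => (Matrix.of W).adjugate i n := by
  have h1 : Continuous fun W : Fin d → Fin d → ℝ => Matrix.of W := continuous_id
  exact h1.matrix_adjugate.matrix_elem i n

end ITVdm

open ITVdm in
theorem pr_Vdm : StVdm := by
  intro d
  have hU : IsCompact (U d) := isCompact_univ_pi fun i => isCompact_Icc
  have hV : IsCompact (V '' U d) := hU.image_of_continuousOn (contV d)
  have hO : IsOpen {W : Fin d → Fin d → ℝ | (Matrix.of W).det ≠ 0} :=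
    isOpen_ne_fun (contDet d) continuous_const
  obtain ⟨η, hη, hsub⟩ := hV.exists_cthickening_subset_open hO (by
    rintro _ ⟨u, hu, rfl⟩
    exact det_ne hu)
  have hC : IsCompact (cthickening η (V '' U d)) := hV.cthickening
  have hb : ∀ i n : Fin d, ∃ B, ∀ W ∈ cthickening η (V '' U d),
      ‖((Matrix.of W).det)⁻¹ * (Matrix.of W).adjugate i n‖ ≤ B := by
    intro i n
    refine hC.exists_bound_of_continuousOn ?_
    exact ((contDet d).continuousOn.inv₀ fun W hW => hsub hW).mul (contAdj d i n).continuousOn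
  choose B hB using hb
  set K : ℝ := ∑ i, ∑ n, |B i n| with hK
  have hK0 : 0 ≤ K := by positivity
  refine ⟨K + 1, η, by positivity, hη, fun u hu W hW s σ hs => ?_⟩
  have hu' : u ∈ U d := fun i _ => hu i
  have hWc : W ∈ cthickening η (V '' U d) := by
    refine mem_cthickening_of_dist_le W (V u) η _ ⟨u, hu', rfl⟩ ?_
    rw [dist_pi_le_iff hη.le]
    intro n
    rw [dist_pi_le_iff hη.le]
    intro i
    rw [Real.dist_eq]
    exact hW n i
  have hdet : (Matrix.of W).det ≠ 0 := hsub hWc
  refine ⟨fun i => ∑ n, ((Matrix.of W).det)⁻¹ * (Matrix.of W).adjugate i n * s n, fun n => ?_,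
    fun i => ?_⟩
  · have h1 : ∀ k, ∑ i, W n i * (Matrix.of W).adjugate i k =
        (Matrix.of W).det * (if n = k then 1 else 0) := by
      intro k
      have h2 := congrFun (congrFun (Matrix.mul_adjugate (Matrix.of W)) n) k
      rw [Matrix.mul_apply, Matrix.smul_apply, Matrix.one_apply] at h2
      exact h2
    calc ∑ i, (∑ k, ((Matrix.of W).det)⁻¹ * (Matrix.of W).adjugate i k * s k) * W n i
        = ∑ k, ((Matrix.of W).det)⁻¹ * s k * ∑ i, W n i * (Matrix.of W).adjugate i k := by
          simp only [Finset.sum_mul, Finset.mul_sum]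
          rw [Finset.sum_comm]
          exact Finset.sum_congr rfl fun k _ => Finset.sum_congr rfl fun i _ => by ring
      _ = ∑ k, (if n = k then s k else 0) := by
          refine Finset.sum_congr rfl fun k _ => ?_
          rw [h1 k]
          split_ifs
          · rw [mul_one, mul_assoc, mul_comm (s k), ← mul_assoc, inv_mul_cancel₀ hdet, one_mul]
          · simp
      _ = s n := by simp
  · by_cases hd : d = 0
    · subst hd
      exact i.elim0
    have hσ : 0 ≤ σ := (abs_nonneg _).trans (hs i)
    calc |∑ n, ((Matrix.of W).det)⁻¹ * (Matrix.of W).adjugate i n * s n|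
        ≤ ∑ n, |((Matrix.of W).det)⁻¹ * (Matrix.of W).adjugate i n * s n| :=
          Finset.abs_sum_le_sum_abs _ _
      _ ≤ ∑ n, |B i n| * σ := by
          refine Finset.sum_le_sum fun n _ => ?_
          rw [abs_mul]
          exact mul_le_mul ((hB i n W hWc).trans (le_abs_self _)) (hs n) (abs_nonneg _)
            (abs_nonneg _)
      _ = (∑ n, |B i n|) * σ := by rw [Finset.sum_mul]
      _ ≤ K * σ := by
          refine mul_le_mul_of_nonneg_right ?_ hσ
          exact Finset.single_le_sum (f := fun i => ∑ n, |B i n|)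
            (fun i _ => Finset.sum_nonneg fun n _ => abs_nonneg _) (Finset.mem_univ i)
      _ ≤ (K + 1) * σ := by nlinarith

end Pool.Agent.TE
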