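import Pool.Agent.Work.MP_f1a024_nt.TE.I_Main
import Pool.Agent.Work.MP_f1a024_nt.TE.I_Thin

set_option autoImplicit false

/-!
# MP_f1a024_nt, block TE: thin rich subsets of a rich set
-/

open Filter Topology

namespace Pool.Agent.TE

/-- a rich set contains thin rich sets -/
theorem thinA (hS : StSlow) (A : Set ℕ) (hP : RichA A) (h : ℕ → ℝ) (hh : Tendsto h atTop atTop) :
    ∃ A' ⊆ A, Rich A' ∧ ThinA h A' := by
  classical
  have hN : ∀ d : ℕ, ∃ N : ℕ, (∀ j, N ≤ j → ∃ F : Finset ℕ, F.card = d ∧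
      ∀ p ∈ F, p ∈ A ∧ 16 ^ j ≤ p ∧ p < 4 * 16 ^ j) ∧ ∀ x, 16 ^ N ≤ x → 2 * (d : ℝ) ≤ h x := by
    intro d
    obtain ⟨x0, hx0⟩ := eventually_atTop.1 (hP d)
    obtain ⟨x1, hx1⟩ := eventually_atTop.1 (hh.eventually_ge_atTop (2 * (d : ℝ)))
    refine ⟨max x0 x1, fun j hj => ?_, fun x hx => ?_⟩
    · exact hx0 (16 ^ j) (((le_max_left _ _).trans hj).trans (ITThin.le_pow16 j))
    · exact hx1 x ((le_max_right x0 x1).trans ((ITThin.le_pow16 _).trans hx))
  choose N hN1 hN2 using hN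
  obtain ⟨g, -, gmono, -, gtop, gN⟩ := hS N
  have gm : Monotone g := monotone_nat_of_le_succ gmono
  have hF : ∀ k, ∃ F : Finset ℕ, F.card = g k ∧ ∀ p ∈ F, p ∈ A ∧ 16 ^ k ≤ p ∧ p < 4 * 16 ^ k := by
    intro k
    rcases Nat.eq_zero_or_pos (g k) with h0 | h0
    · exact ⟨∅, by rw [h0]; rfl, by simp⟩
    · exact hN1 (g k) k (gN k h0)
  choose F hF1 hF2 using hF
  refine ⟨{p | ∃ k, p ∈ F k}, ?_, ?_, ?_⟩
  · rintro p ⟨k, hk⟩
    exact (hF2 k p hk).1
  · intro m
    filter_upwards [gtop.eventually_ge_atTop m] with j hj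
    obtain ⟨F', hF', hF'c⟩ := Finset.exists_subset_card_eq (s := F j) (n := m) (by rw [hF1]; exact hj)
    exact ⟨F', hF'c, fun p hp => ⟨⟨j, hF' hp⟩, (hF2 j p (hF' hp)).2⟩⟩
  · have hlog : Tendsto (fun x => Nat.log 16 x) atTop atTop := by
      refine tendsto_atTop.2 fun b => ?_
      filter_upwards [eventually_ge_atTop (16 ^ b)] with x hx
      exact Nat.le_log_of_pow_le (by norm_num) hx
    have e1 := hlog.eventually (gtop.eventually_ge_atTop 1)
    filter_upwards [e1, hlog.eventually_ge_atTop 1, eventually_ge_atTop 1] with x hx1 hx2 hx3 G hG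
    set K := Nat.log 16 x with hK
    have hKx : 16 ^ K ≤ x := Nat.pow_log_le_self 16 (by omega)
    have hKx' : x < 16 ^ (K + 1) := Nat.lt_pow_succ_log_self (by norm_num) x
    have hsub : G ⊆ (Finset.range (K + 1)).biUnion F := by
      intro p hp
      obtain ⟨⟨k, hk⟩, hpx⟩ := hG p hp
      rw [Finset.mem_biUnion]
      refine ⟨k, ?_, hk⟩
      rw [Finset.mem_range]
      have h1 := (hF2 k p hk).2.1
      exact (Nat.pow_lt_pow_iff_right (by norm_num : 1 < 16)).1 ((h1.trans hpx).trans_lt hKx')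
    have hcard : G.card ≤ (K + 1) * g K := by
      calc G.card ≤ ((Finset.range (K + 1)).biUnion F).card := Finset.card_le_card hsub
        _ ≤ ∑ k ∈ Finset.range (K + 1), (F k).card := Finset.card_biUnion_le
        _ ≤ ∑ k ∈ Finset.range (K + 1), g K := by
            refine Finset.sum_le_sum fun k hk => ?_
            rw [hF1]
            exact gm (by rw [Finset.mem_range] at hk; omega)
        _ = (K + 1) * g K := by rw [Finset.sum_const, Finset.card_range, smul_eq_mul]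
    have hh2 : 2 * (g K : ℝ) ≤ h x := by
      refine hN2 (g K) x (le_trans ?_ hKx)
      exact Nat.pow_le_pow_right (by norm_num) (gN K hx1)
    have hlogx : (K : ℝ) ≤ Real.log x := by
      have h1 : ((16 : ℝ)) ^ K ≤ x := by exact_mod_cast hKx
      have h2 := Real.log_le_log (by positivity) h1
      rw [Real.log_pow] at h2
      have h3 : (1 : ℝ) ≤ Real.log 16 := by
        rw [Real.le_log_iff_exp_le (by norm_num)]
        have := Real.exp_one_lt_d9
        linarith
      have h4 : (K : ℝ) * 1 ≤ K * Real.log 16 := mul_le_mul_of_nonneg_left h3 (by positivity)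
      linarith
    have hK1 : (1 : ℝ) ≤ K := by exact_mod_cast hx2
    have hg0 : (0 : ℝ) ≤ g K := by positivity
    have hc : (G.card : ℝ) ≤ (K + 1) * g K := by exact_mod_cast hcard
    calc (G.card : ℝ) ≤ (K + 1) * g K := hc
      _ ≤ (2 * g K) * K := by nlinarith
      _ ≤ h x * Real.log x := mul_le_mul hh2 hlogx (by positivity) (by linarith)

/-- THE THEOREM: thin subsets of a rich set of primes -/
theorem general (hT : StTh) (hS : StSlow) (A : Set ℕ) (hA : ∀ p ∈ A, p.Prime) (hR : RichA A)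
    (h : ℕ → ℝ) (hh : Tendsto h atTop atTop) (D : ℕ → Set ℝ) (hD : DenseP D) :
    ∃ E ⊆ A, ThinA h E ∧ ∀ n, 2 ≤ n → zetaP E n ∈ D n := by
  obtain ⟨A', hA', hA2, hA3⟩ := thinA hS A hR h hh
  obtain ⟨E, hE, hE2⟩ := hT A' (fun p hp => hA p (hA' hp)) hA2 D hD
  exact ⟨E, hE.trans hA', ITMain.thin_mono hA3 hE, hE2⟩

end Pool.Agent.TE
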