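import Pool.Agent.Work.MP_f1a024_nt.TE.I_Abs
import Pool.Agent.Work.MP_f1a024_nt.TE.I_Asy
import Pool.Agent.Work.MP_f1a024_nt.TE.I_Blk
import Pool.Agent.Work.MP_f1a024_nt.TE.I_Bls
import Pool.Agent.Work.MP_f1a024_nt.TE.I_Eul
import Pool.Agent.Work.MP_f1a024_nt.TE.I_Main
import Pool.Agent.Work.MP_f1a024_nt.TE.I_Pat
import Pool.Agent.Work.MP_f1a024_nt.TE.I_Pr
import Pool.Agent.Work.MP_f1a024_nt.TE.I_Rec
import Pool.Agent.Work.MP_f1a024_nt.TE.I_Round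
import Pool.Agent.Work.MP_f1a024_nt.TE.I_Slow
import Pool.Agent.Work.MP_f1a024_nt.TE.I_Sum
import Pool.Agent.Work.MP_f1a024_nt.TE.I_Th
import Pool.Agent.Work.MP_f1a024_nt.TE.I_Thin
import Pool.Agent.Work.MP_f1a024_nt.TE.I_Vdm
import Pool.Agent.Work.MP_f1a024_nt.TE.ThinA

set_option autoImplicit false

/-!
# MP_f1a024_nt, block TE: assembly
-/

open Filter Topology

namespace Pool.Agent.TE

theorem th : StTh :=
  pr_Th pr_Asy (pr_Abs (pr_Bls (pr_Blk pr_Round pr_Vdm) pr_Slow) pr_Rec pr_Sum) pr_Eul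

/-- THEOREM TE -/
theorem main : Main := pr_Main th (pr_Thin pr_Pr pr_Slow) pr_Pat

/-- THEOREM TE, general form: thin subsets of a rich set of primes -/
theorem thinEuler (A : Set ℕ) (hA : ∀ p ∈ A, p.Prime) (hR : RichA A)
    (h : ℕ → ℝ) (hh : Tendsto h atTop atTop) (D : ℕ → Set ℝ) (hD : DenseP D) :
    ∃ E ⊆ A, ThinA h E ∧ ∀ n, 2 ≤ n → zetaP E n ∈ D n :=
  general th pr_Slow A hA hR h hh D hD

end Pool.Agent.TE
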