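import Mathlib

set_option autoImplicit false

/-!
# MP_f1a024_nt, block TE: deleting a thin set of Euler factors.  Definitions
-/

open Filter Topology

namespace Pool.Agent.TE

/-! ### definitions of the theorem -/

/-- `zetaP E n` is the sum of `k^(-n)` over the positive integers `k` which are not divisible by any
element of `E`; if `E` is a set of primes this is the product of `(1 - p^(-n))^(-1)` over the
primes `p` outside `E` -/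
noncomputable def zetaP (E : Set ℕ) (n : ℕ) : ℝ := by
  classical
  exact ∑' k : ℕ, if 0 < k ∧ ∀ p ∈ E, ¬ p ∣ k then 1 / (k : ℝ) ^ n else 0

/-- all sets `D n` are dense in `(0, oo)` -/
def DenseP (D : ℕ → Set ℝ) : Prop := ∀ (n : ℕ) (a b : ℝ), 0 < a → a < b → ∃ y ∈ D n, a < y ∧ y < b

/-- the number of elements of `A` in `[x, 4x)` tends to infinity -/
def RichA (A : Set ℕ) : Prop := ∀ m : ℕ, ∀ᶠ x : ℕ in atTop, ∃ F : Finset ℕ, F.card = m ∧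
  ∀ p ∈ F, p ∈ A ∧ x ≤ p ∧ p < 4 * x

/-- `E` has at most `h(x) log x` elements up to `x`, for large `x` -/
def ThinA (h : ℕ → ℝ) (E : Set ℕ) : Prop := ∀ᶠ x : ℕ in atTop, ∀ F : Finset ℕ,
  (∀ p ∈ F, p ∈ E ∧ p ≤ x) → (F.card : ℝ) ≤ h x * Real.log x

/-- THEOREM TE -/
def Main : Prop :=
  (∀ A : Set ℕ, (∀ p ∈ A, p.Prime) → RichA A → ∀ D : ℕ → Set ℝ, DenseP D →
    ∃ E ⊆ A, ∀ n, 2 ≤ n → zetaP E n ∈ D n) ∧
  (∀ h : ℕ → ℝ, Tendsto h atTop atTop → ∀ D : ℕ → Set ℝ, DenseP D →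
    ∃ E : Set ℕ, (∀ p ∈ E, p.Prime) ∧ ThinA h E ∧ ∀ n, 2 ≤ n → zetaP E n ∈ D n) ∧
  ∀ h : ℕ → ℝ, Tendsto h atTop atTop → ∀ N : Set ℕ, ∃ E : Set ℕ, (∀ p ∈ E, p.Prime) ∧ ThinA h E ∧
    (∀ m, 1 ≤ m → ∃ r : ℚ, zetaP E (2 * m) = r * Real.pi ^ (2 * m)) ∧
    ∀ n, 3 ≤ n → Odd n → ((∃ r : ℚ, zetaP E (2 * n) / zetaP E n ^ 2 = r) ↔ n ∈ N)

/-! ### auxiliary definitions of the proof -/

/-- the logarithm of the Euler factor -/
noncomputable def vz (n p : ℕ) : ℝ := - Real.log (1 - 1 / (p : ℝ) ^ n)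

/-- `v n p` is asymptotic to `p^(-n)` for every `n` -/
def Asy (v : ℕ → ℕ → ℝ) : Prop := ∀ n, 2 ≤ n →
  Tendsto (fun p : ℕ => (p : ℝ) ^ n * v n p) atTop (𝓝 1)

/-- the number of elements of `A` in `[16^j, 4 * 16^j)` tends to infinity -/
def Rich (A : Set ℕ) : Prop := ∀ m : ℕ, ∀ᶠ j : ℕ in atTop, ∃ F : Finset ℕ, F.card = m ∧
  ∀ p ∈ F, p ∈ A ∧ 16 ^ j ≤ p ∧ p < 4 * 16 ^ j

/-- a block: `m` integers in each of the intervals `[16^(s+i), 4 * 16^(s+i))`, `i < d` -/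
def Blk (d m s : ℕ) (F : Finset ℕ) : Prop := ∃ p : Fin d × Fin m → ℕ, Function.Injective p ∧
  F = Finset.univ.image p ∧ ∀ (i : Fin d) (j : Fin m),
    16 ^ (s + (i : ℕ)) ≤ p (i, j) ∧ p (i, j) < 4 * 16 ^ (s + (i : ℕ))

/-- the radius of the box (times `16^(-s n)`) which can be corrected by a block of dimension `d` -/
noncomputable def rho (d : ℕ) : ℝ := 2 * ((d : ℝ) + 1) * 16 ^ ((d + 1) * (d + 2))

/-- what a block of dimension `d` starting at `16^s` can do -/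
def Can (v : ℕ → ℕ → ℝ) (d s : ℕ) (F : Finset ℕ) : Prop :=
  ∀ δ : ℕ → ℝ, (∀ n, 2 ≤ n → n ≤ d + 1 → |δ n| ≤ rho d / 16 ^ (s * n)) →
    ∃ S ⊆ F, ∀ n, 2 ≤ n → n ≤ d + 1 →
      |∑ p ∈ S, v n p - 1 / 2 * ∑ p ∈ F, v n p - δ n| ≤ 2 * d / 16 ^ (s * n)

/-- a sequence of blocks; the block `F k` has dimension `g k` and lies in `[16^(s k), 16^(s (k+1)))` -/
structure Blocks (v : ℕ → ℕ → ℝ) (g s : ℕ → ℕ) (F : ℕ → Finset ℕ) : Prop where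
  g0 : g 0 = 0
  mono : ∀ k, g k ≤ g (k + 1)
  inc : ∀ k, g (k + 1) ≤ g k + 1
  top : Tendsto g atTop atTop
  s_succ : ∀ k, s (k + 1) = s k + g k + 1
  small : ∀ k, 1 ≤ g k → rho (g k) ≤ 16 ^ (s k)
  loc : ∀ k, ∀ p ∈ F k, 16 ^ (s k) ≤ p ∧ p < 16 ^ (s (k + 1))
  can : ∀ k, Can v (g k) (s k) (F k)

end Pool.Agent.TE
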