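import Pool.Agent.Work.MP_f1a024_nt.TE.Stmts

set_option autoImplicit false

/-!
# MP_f1a024_nt, block TE, item Abs: the abstract theorem
-/

open Filter Topology

namespace Pool.Agent.TE

theorem pr_Abs (hB : StBls) (hR : StRec) (hS : StSum) : StAbs := by
  intro v hv A hA T hT
  obtain ⟨g, s, F, hF, hFA⟩ := hB v hv A hA
  obtain ⟨B, hBd⟩ : ∃ B : ℕ → ℝ, ∀ n, 2 ≤ n → Tendsto (fun k => ∑ j ∈ Finset.range k,
      1 / 2 * ∑ p ∈ F j, v n p) atTop (𝓝 (B n)) := by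
    refine ⟨fun n => 1 / 2 * ∑' p : ℕ, (⋃ k, (F k : Set ℕ)).indicator (v n) p, fun n hn => ?_⟩
    have h1 := (hS v hv g s F hF F (fun k => Finset.Subset.refl _) n hn).2.const_mul (1 / 2 : ℝ)
    refine h1.congr fun k => ?_
    rw [Finset.mul_sum]
  have hT' : ∀ n, Dense ((fun y : ℝ => y + B n) ⁻¹' T n) := fun n =>
    (hT n).preimage (isOpenMap_add_right (B n))
  obtain ⟨S, hSF, hlim⟩ := hR v g s F hF (fun n => (fun y : ℝ => y + B n) ⁻¹' T n) hT'
  refine ⟨⋃ k, (S k : Set ℕ), ?_, fun n hn => ?_⟩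
  · intro p hp
    obtain ⟨k, hk⟩ := Set.mem_iUnion.1 hp
    exact hFA k p (hSF k hk)
  · obtain ⟨h1, h2⟩ := hS v hv g s F hF S hSF n hn
    refine ⟨h1, ?_⟩
    obtain ⟨y, hy, hy2⟩ := hlim n hn
    have h3 := hy2.add (hBd n hn)
    have h4 : Tendsto (fun k => ∑ j ∈ Finset.range k, ∑ p ∈ S j, v n p) atTop (𝓝 (y + B n)) := by
      refine h3.congr fun k => ?_
      rw [← Finset.sum_add_distrib]
      refine Finset.sum_congr rfl fun j _ => ?_
      ring
    rw [tendsto_nhds_unique h2 h4]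
    exact hy

end Pool.Agent.TE
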