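import Pool.Agent.Work.MP_f1a024_nt.TE.Stmts

set_option autoImplicit false

/-!
# MP_f1a024_nt, block TE, item Round: rounding (Shapley-Folkman)
-/

open Filter Topology

namespace Pool.Agent.TE

namespace ITRound

/-- the fractional indices -/
noncomputable def fr {ι : Type} [Fintype ι] (t : ι → ℝ) : Finset ι := by
  classical
  exact Finset.univ.filter (fun i => 0 < t i ∧ t i < 1)

theorem mem_fr {ι : Type} [Fintype ι] {t : ι → ℝ} {i : ι} : i ∈ fr t ↔ 0 < t i ∧ t i < 1 := by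
  classical
  unfold fr
  simp

theorem rel {ι : Type} [Fintype ι] (d : ℕ) (w : Fin d → ι → ℝ) (A : Finset ι) (h : d < A.card) :
    ∃ c : ι → ℝ, (∀ i, i ∉ A → c i = 0) ∧ (∃ i, c i ≠ 0) ∧ ∀ n, ∑ i, c i * w n i = 0 := by
  classical
  let L : (A → ℝ) →ₗ[ℝ] (Fin d → ℝ) := Matrix.mulVecLin (Matrix.of fun n (i : A) => w n i)
  have h1 : LinearMap.ker L ≠ ⊥ := by
    apply LinearMap.ker_ne_bot_of_finrank_lt
    rw [Module.finrank_fin_fun, Module.finrank_fintype_fun_eq_card, Fintype.card_coe]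
    exact h
  obtain ⟨c0, hc0, hne⟩ := Submodule.exists_mem_ne_zero_of_ne_bot h1
  have h2 : ∀ n, ∑ i : A, w n i * c0 i = 0 := by
    intro n
    have h3 : L c0 = 0 := hc0
    have h4 := congrFun h3 n
    exact h4
  refine ⟨fun i => if h : i ∈ A then c0 ⟨i, h⟩ else 0, fun i hi => dif_neg hi, ?_, fun n => ?_⟩
  · by_contra h3
    push Not at h3
    apply hne
    funext i
    have h4 := h3 i
    rw [dif_pos i.2] at h4
    exact h4
  · rw [← Finset.sum_subset (Finset.subset_univ A)]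
    · refine Eq.trans ?_ (h2 n)
      rw [← Finset.sum_coe_sort A]
      refine Finset.sum_congr rfl (fun i _ => ?_)
      beta_reduce
      rw [dif_pos i.2, mul_comm]
    · intro i _ hi
      beta_reduce
      rw [dif_neg hi, zero_mul]

theorem step {ι : Type} [Fintype ι] (d : ℕ) (w : Fin d → ι → ℝ) (t : ι → ℝ)
    (ht : ∀ i, 0 ≤ t i ∧ t i ≤ 1) (h : d < (fr t).card) :
    ∃ t' : ι → ℝ, (∀ i, 0 ≤ t' i ∧ t' i ≤ 1) ∧ (∀ n, ∑ i, t' i * w n i = ∑ i, t i * w n i) ∧
      (fr t').card < (fr t).card := by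
  classical
  obtain ⟨c, hc0, ⟨i1, hi1⟩, hc⟩ := rel d w (fr t) h
  let R : ι → ℝ := fun i => if 0 < c i then (1 - t i) / c i else t i / (-c i)
  have hne : (Finset.univ.filter (fun i => c i ≠ 0)).Nonempty :=
    ⟨i1, Finset.mem_filter.2 ⟨Finset.mem_univ _, hi1⟩⟩
  obtain ⟨i0, hi0, hmin⟩ := Finset.exists_min_image _ R hne
  have hci0 : c i0 ≠ 0 := (Finset.mem_filter.1 hi0).2
  have hfr : ∀ i, c i ≠ 0 → 0 < t i ∧ t i < 1 := by
    intro i hi
    by_contra h1
    exact hi (hc0 i (fun h2 => h1 (mem_fr.1 h2)))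
  have hRpos : 0 < R i0 := by
    obtain ⟨h1, h2⟩ := hfr i0 hci0
    change 0 < if 0 < c i0 then (1 - t i0) / c i0 else t i0 / (-c i0)
    split_ifs with h3
    · exact div_pos (by linarith) h3
    · have h4 : c i0 < 0 := lt_of_le_of_ne (not_lt.1 h3) hci0
      exact div_pos h1 (by linarith)
  refine ⟨fun i => t i + R i0 * c i, fun i => ?_, fun n => ?_, ?_⟩
  · by_cases h1 : c i = 0
    · simp only [h1, mul_zero, add_zero]
      exact ht i
    · have h2 : R i0 ≤ R i := hmin i (Finset.mem_filter.2 ⟨Finset.mem_univ _, h1⟩)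
      obtain ⟨h3, h4⟩ := hfr i h1
      by_cases h5 : 0 < c i
      · have h6 : R i = (1 - t i) / c i := if_pos h5
        have h7 : R i * c i = 1 - t i := by rw [h6, div_mul_cancel₀ _ h5.ne']
        have h8 : R i0 * c i ≤ R i * c i := mul_le_mul_of_nonneg_right h2 h5.le
        have h9 : 0 < R i0 * c i := mul_pos hRpos h5
        constructor <;> linarith
      · have h5' : c i < 0 := lt_of_le_of_ne (not_lt.1 h5) h1
        have h6 : R i = t i / (-c i) := if_neg h5
        have h7 : R i * (-c i) = t i := by rw [h6, div_mul_cancel₀ _ (by linarith)]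
        have h8 : R i0 * (-c i) ≤ R i * (-c i) := mul_le_mul_of_nonneg_right h2 (by linarith)
        have h9 : 0 < R i0 * (-c i) := mul_pos hRpos (by linarith)
        constructor <;> linarith
  · have h1 : ∀ i, (t i + R i0 * c i) * w n i = t i * w n i + R i0 * (c i * w n i) := fun i => by ring
    rw [Finset.sum_congr rfl (fun i _ => h1 i), Finset.sum_add_distrib, ← Finset.mul_sum, hc n]
    ring
  · apply Finset.card_lt_card
    rw [Finset.ssubset_iff_of_subset]
    · refine ⟨i0, mem_fr.2 (hfr i0 hci0), fun h1 => ?_⟩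
      have h2 := mem_fr.1 h1
      by_cases h5 : 0 < c i0
      · have h6 : R i0 = (1 - t i0) / c i0 := if_pos h5
        have h7 : R i0 * c i0 = 1 - t i0 := by rw [h6, div_mul_cancel₀ _ h5.ne']
        linarith [h2.2]
      · have h5' : c i0 < 0 := lt_of_le_of_ne (not_lt.1 h5) hci0
        have h6 : R i0 = t i0 / (-c i0) := if_neg h5
        have h7 : R i0 * (-c i0) = t i0 := by rw [h6, div_mul_cancel₀ _ (by linarith)]
        linarith [h2.1]
    · intro i hi
      by_cases h1 : c i = 0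
      · have h2 := mem_fr.1 hi
        simp only [h1, mul_zero, add_zero] at h2
        exact mem_fr.2 h2
      · exact mem_fr.2 (hfr i h1)

theorem base {ι : Type} [Fintype ι] (d : ℕ) (w : Fin d → ι → ℝ) (t : ι → ℝ) (M : Fin d → ℝ)
    (hM : ∀ n, 0 ≤ M n) (ht : ∀ i, 0 ≤ t i ∧ t i ≤ 1) (hw : ∀ n i, |w n i| ≤ M n)
    (h : (fr t).card ≤ d) :
    ∃ S : Finset ι, ∀ n, |∑ i ∈ S, w n i - ∑ i, t i * w n i| ≤ d * M n := by
  classical
  refine ⟨Finset.univ.filter (fun i => t i = 1), fun n => ?_⟩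
  have h1 : ∑ i ∈ Finset.univ.filter (fun i => t i = 1), w n i - ∑ i, t i * w n i =
      ∑ i ∈ fr t, -(t i * w n i) := by
    rw [Finset.sum_filter, ← Finset.sum_sub_distrib]
    symm
    rw [← Finset.sum_subset (Finset.subset_univ (fr t))]
    · refine Finset.sum_congr rfl (fun i hi => ?_)
      rw [if_neg (fun h2 => absurd (mem_fr.1 hi).2 (by rw [h2]; exact lt_irrefl 1))]
      ring
    · intro i _ hi
      by_cases h2 : t i = 1
      · rw [if_pos h2, h2]
        ring
      · have h3 : t i = 0 := by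
          by_contra h4
          exact hi (mem_fr.2 ⟨lt_of_le_of_ne (ht i).1 (Ne.symm h4), lt_of_le_of_ne (ht i).2 h2⟩)
        rw [if_neg h2, h3]
        ring
  rw [h1]
  calc |∑ i ∈ fr t, -(t i * w n i)| ≤ ∑ i ∈ fr t, |-(t i * w n i)| :=
        Finset.abs_sum_le_sum_abs _ _
    _ ≤ ∑ _i ∈ fr t, M n := by
        refine Finset.sum_le_sum (fun i _ => ?_)
        rw [abs_neg, abs_mul, abs_of_nonneg (ht i).1]
        calc t i * |w n i| ≤ 1 * |w n i| := mul_le_mul_of_nonneg_right (ht i).2 (abs_nonneg _)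
          _ ≤ M n := by rw [one_mul]; exact hw n i
    _ = (fr t).card * M n := by rw [Finset.sum_const, nsmul_eq_mul]
    _ ≤ d * M n := mul_le_mul_of_nonneg_right (by exact_mod_cast h) (hM n)

theorem all {ι : Type} [Fintype ι] (d : ℕ) (w : Fin d → ι → ℝ) (M : Fin d → ℝ)
    (hM : ∀ n, 0 ≤ M n) (hw : ∀ n i, |w n i| ≤ M n) (N : ℕ) :
    ∀ t : ι → ℝ, (∀ i, 0 ≤ t i ∧ t i ≤ 1) → (fr t).card ≤ N →
      ∃ S : Finset ι, ∀ n, |∑ i ∈ S, w n i - ∑ i, t i * w n i| ≤ d * M n := by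
  induction N with
  | zero =>
    intro t ht h
    exact base d w t M hM ht hw (h.trans (Nat.zero_le d))
  | succ N ih =>
    intro t ht h
    by_cases h1 : (fr t).card ≤ d
    · exact base d w t M hM ht hw h1
    · obtain ⟨t', ht', hs, hc⟩ := step d w t ht (not_le.1 h1)
      obtain ⟨S, hS⟩ := ih t' ht' (by omega)
      refine ⟨S, fun n => ?_⟩
      rw [← hs n]
      exact hS n

end ITRound

theorem pr_Round : ∀ (ι : Type) [Fintype ι] (d : ℕ) (w : Fin d → ι → ℝ) (t : ι → ℝ)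
    (M : Fin d → ℝ), (∀ n, 0 ≤ M n) → (∀ i, 0 ≤ t i ∧ t i ≤ 1) → (∀ n i, |w n i| ≤ M n) →
    ∃ S : Finset ι, ∀ n, |∑ i ∈ S, w n i - ∑ i, t i * w n i| ≤ d * M n := by
  intro ι _ d w t M hM ht hw
  exact ITRound.all d w M hM hw _ t ht le_rfl

end Pool.Agent.TE
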